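import Mathlib
import Pool.Agent.Helper34.NQ.B2

set_option autoImplicit false

/-! Separated windows and the windows of their divisors: the number of the pairs with a common point. -/

namespace Pool.Agent.Helper34.OP
open Finset
open Pool.Agent.Helper34.NQ (run mem_run card_run slopes sum_inv_sq')

/-- the pairs of windows whose runs have a common point -/
noncomputable def MM (W : Finset ℤ) (H q r : ℕ) : Finset (ℤ × ℤ) := by
  classical
  exact (W ×ˢ W).filter (fun p => ∃ m, m ∈ run p.1 H q ∧ m ∈ run p.2 H r)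

lemma mem_MM {W : Finset ℤ} {H q r : ℕ} {p : ℤ × ℤ} :
    p ∈ MM W H q r ↔ (p.1 ∈ W ∧ p.2 ∈ W) ∧ ∃ m, m ∈ run p.1 H q ∧ m ∈ run p.2 H r := by
  unfold MM
  rw [mem_filter, mem_product]

/-- separated points in an interval -/
lemma sep_card {S : Finset ℤ} {H : ℕ} (hH : 1 ≤ H) (hS : ∀ x ∈ S, ∀ y ∈ S, x ≠ y → (H : ℤ) ≤ |x - y|) (L : ℤ) (c : ℕ)
    (h : ∀ x ∈ S, L ≤ x ∧ x < L + c * H) : S.card ≤ c := by
  have hH0 : (0 : ℤ) < H := by exact_mod_cast hH
  have h1 : S.card ≤ (Ico (0 : ℤ) c).card := by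
    apply card_le_card_of_injOn (fun x => (x - L) / H)
    · intro x hx
      obtain ⟨a1, a2⟩ := h x hx
      rw [coe_Ico, Set.mem_Ico]
      constructor
      · exact Int.ediv_nonneg (by linarith) hH0.le
      · rw [Int.ediv_lt_iff_lt_mul hH0]
        linarith
    · intro x hx y hy hxy
      by_contra hne
      have h2 := hS x hx y hy hne
      simp only at hxy
      have e1 := Int.emod_add_mul_ediv (x - L) H
      have e2 := Int.emod_add_mul_ediv (y - L) H
      have f1 := Int.emod_nonneg (x - L) hH0.ne'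
      have f2 := Int.emod_lt_of_pos (x - L) hH0
      have f3 := Int.emod_nonneg (y - L) hH0.ne'
      have f4 := Int.emod_lt_of_pos (y - L) hH0
      rw [hxy] at e1
      rw [le_abs] at h2
      rcases h2 with h2 | h2 <;> linarith
  rw [Int.card_Ico] at h1
  omega

/-- the same divisor -/
lemma same_q {W : Finset ℤ} {H q : ℕ} (hq : 1 ≤ q) (hsep : ∀ x ∈ W, ∀ y ∈ W, x ≠ y → (H : ℤ) ≤ |x - y|) {p : ℤ × ℤ}
    (hp : p ∈ MM W H q q) : p.1 = p.2 := by
  obtain ⟨⟨h1, h2⟩, m, h3, h4⟩ := mem_MM.1 hp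
  rw [mem_run hq] at h3 h4
  by_contra hne
  have := hsep _ h1 _ h2 hne
  rw [le_abs] at this
  rcases this with h | h <;> linarith [h3.1, h3.2, h4.1, h4.2]

/-- the same window -/
lemma same_y {H Q Y q r : ℕ} {y m : ℤ} (hq : Q < q) (hr : Q < r) (hq2 : q ≤ 2 * Q) (hr2 : r ≤ 2 * Q) (hQH : Q ≤ H)
    (hHY : 2 * H ^ 2 ≤ Y) (hy : (Y : ℤ) ≤ y) (h1 : m ∈ run y H q) (h2 : m ∈ run y H r) : q = r := by
  rw [mem_run (by omega)] at h1 h2
  have hm : (H : ℤ) < m := by
    by_contra hcon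
    push Not at hcon
    have e1 : (q : ℤ) * m ≤ 2 * H * H := by
      have a1 : (q : ℤ) ≤ 2 * H := by exact_mod_cast (by omega : q ≤ 2 * H)
      have a2 : (0 : ℤ) ≤ q := by positivity
      rcases le_or_gt 0 m with hm | hm
      · exact mul_le_mul a1 hcon hm (by positivity)
      · have : (q : ℤ) * m ≤ 0 := mul_nonpos_of_nonneg_of_nonpos a2 hm.le
        have : (0 : ℤ) ≤ 2 * H * H := by positivity
        linarith
    have e2 : (2 * H ^ 2 : ℤ) ≤ Y := by exact_mod_cast hHY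
    have e3 := h1.1
    nlinarith
  by_contra hne
  have e1 : ((q : ℤ) - r) * m < H ∧ -(H : ℤ) < ((q : ℤ) - r) * m := by
    constructor <;> nlinarith [h1.1, h1.2, h2.1, h2.2]
  have hm0 : (0 : ℤ) < m := lt_of_le_of_lt (by positivity) hm
  rcases lt_or_gt_of_ne hne with h | h
  · have : (q : ℤ) - r ≤ -1 := by omega
    have : ((q : ℤ) - r) * m ≤ -1 * m := mul_le_mul_of_nonneg_right this hm0.le
    linarith [e1.2]
  · have : 1 ≤ (q : ℤ) - r := by omega
    have : 1 * m ≤ ((q : ℤ) - r) * m := mul_le_mul_of_nonneg_right this hm0.le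
    linarith [e1.1]

/-- the number of the pairs for two given divisors -/
lemma MM_card {W : Finset ℤ} {H Q q r : ℕ} (hH : 1 ≤ H) (hsep : ∀ x ∈ W, ∀ y ∈ W, x ≠ y → (H : ℤ) ≤ |x - y|)
    (hq : Q < q) (hr : Q < r) (hq2 : q ≤ 2 * Q) : (MM W H q r).card ≤ 4 * W.card := by
  classical
  have h1 : ∀ p ∈ MM W H q r, p.2 ∈ W := fun p hp => (mem_MM.1 hp).1.2
  rw [card_eq_sum_card_fiberwise h1]
  have hr0 : (0 : ℤ) < r := by exact_mod_cast (by omega : 0 < r)
  have h2 : ∀ y' ∈ W, ((MM W H q r).filter (fun p => p.2 = y')).card ≤ 4 := by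
    intro y' _
    obtain ⟨S, hS⟩ : ∃ S, S = ((MM W H q r).filter (fun p => p.2 = y')).image Prod.fst := ⟨_, rfl⟩
    have hc : ((MM W H q r).filter (fun p => p.2 = y')).card = S.card := by
      rw [hS, card_image_of_injOn]
      rintro ⟨a, b⟩ hp ⟨a', b'⟩ hp' heq
      rw [mem_coe, mem_filter] at hp hp'
      simp only at heq hp hp' ⊢
      rw [heq, hp.2, hp'.2]
    rw [hc]
    apply sep_card hH (S := S) _ ((q : ℤ) * y' / r - H) 4
    · intro x hx
      rw [hS, mem_image] at hx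
      obtain ⟨⟨a, b⟩, hp, rfl⟩ := hx
      rw [mem_filter] at hp
      obtain ⟨hp, hb⟩ := hp
      obtain ⟨⟨g1, g2⟩, m, g3, g4⟩ := mem_MM.1 hp
      simp only at hb g1 g2 g3 g4 ⊢
      rw [mem_run (by omega)] at g3 g4
      subst hb
      have d1 := Int.ediv_mul_le ((q : ℤ) * b) hr0.ne'
      have d2 := Int.lt_ediv_add_one_mul_self ((q : ℤ) * b) hr0
      obtain ⟨D, hD⟩ : ∃ D, D = (q : ℤ) * b / r := ⟨_, rfl⟩
      rw [← hD] at d1 d2 ⊢
      have hqz : (0 : ℤ) < q := by exact_mod_cast (by omega : 0 < q)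
      -- r (a + H) ≥ r q m > q b
      have k1 : (q : ℤ) * b < r * (a + H) := by
        have e1 : (q : ℤ) * b < q * (r * m) := mul_lt_mul_of_pos_left g4.1 hqz
        have e2 : (r : ℤ) * (q * m) ≤ r * (a + H) := mul_le_mul_of_nonneg_left g3.2 hr0.le
        linarith [show (q : ℤ) * (r * m) = r * (q * m) by ring]
      have k2 : (r : ℤ) * a < q * (b + H) := by
        have e1 : (q : ℤ) * (r * m) ≤ q * (b + H) := mul_le_mul_of_nonneg_left g4.2 hqz.le
        have e2 : (r : ℤ) * a < r * (q * m) := mul_lt_mul_of_pos_left g3.1 hr0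
        linarith [show (q : ℤ) * (r * m) = r * (q * m) by ring]
      have hq2r : (q : ℤ) ≤ 2 * r := by omega
      have hHz : (1 : ℤ) ≤ H := by exact_mod_cast hH
      constructor
      · have e1 : r * D < r * (a + H) := by linarith
        have e2 : D < a + H := lt_of_mul_lt_mul_left e1 hr0.le
        linarith
      · have e1 : (q : ℤ) * H ≤ 2 * r * H := mul_le_mul_of_nonneg_right hq2r (by linarith)
        have e2 : r * a < r * (D + 1 + 2 * H) := by linarith
        have e3 : a < D + 1 + 2 * H := lt_of_mul_lt_mul_left e2 hr0.le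
        push_cast
        linarith
    · intro x hx y hy hne
      rw [hS, mem_image] at hx hy
      obtain ⟨p, hp, rfl⟩ := hx
      obtain ⟨p', hp', rfl⟩ := hy
      exact hsep _ (mem_MM.1 (mem_filter.1 hp).1).1.1 _ (mem_MM.1 (mem_filter.1 hp').1).1.1 hne
  refine (sum_le_sum h2).trans ?_
  rw [sum_const, smul_eq_mul, mul_comm]

/-- the pairs with a large common divisor -/
lemma big_gcd {Q G : ℕ} (hG : 1 ≤ G) :
    ((((Ioc Q (2 * Q)) ×ˢ (Ioc Q (2 * Q))).filter (fun p => G < Nat.gcd p.1 p.2)).card : ℝ) ≤ 4 * Q ^ 2 / G := by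
  classical
  have hG0 : (0 : ℝ) < G := by exact_mod_cast hG
  rcases le_or_gt G (2 * Q) with hGQ | hGQ
  · have h1 : ∀ p ∈ ((Ioc Q (2 * Q)) ×ˢ (Ioc Q (2 * Q))).filter (fun p => G < Nat.gcd p.1 p.2),
        Nat.gcd p.1 p.2 ∈ Ioc G (2 * Q) := by
      intro p hp
      rw [mem_filter, mem_product, mem_Ioc, mem_Ioc] at hp
      rw [mem_Ioc]
      exact ⟨hp.2, (Nat.gcd_le_left _ (by omega)).trans hp.1.1.2⟩
    rw [card_eq_sum_card_fiberwise h1]
    push_cast
    have h2 : ∀ g ∈ Ioc G (2 * Q), ((((((Ioc Q (2 * Q)) ×ˢ (Ioc Q (2 * Q))).filter (fun p => G < Nat.gcd p.1 p.2)).filter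
        (fun p => Nat.gcd p.1 p.2 = g)).card : ℕ) : ℝ) ≤ 4 * Q ^ 2 * ((g : ℝ) ^ 2)⁻¹ := by
      intro g hg
      rw [mem_Ioc] at hg
      have hg0 : (0 : ℝ) < g := by exact_mod_cast (by omega : 0 < g)
      have e1 : ((((Ioc Q (2 * Q)) ×ˢ (Ioc Q (2 * Q))).filter (fun p => G < Nat.gcd p.1 p.2)).filter
        (fun p => Nat.gcd p.1 p.2 = g)) ⊆ ((Ioc 0 (2 * Q)).filter (g ∣ ·)) ×ˢ ((Ioc 0 (2 * Q)).filter (g ∣ ·)) := by
        intro p hp
        rw [mem_filter, mem_filter, mem_product, mem_Ioc, mem_Ioc] at hp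
        rw [mem_product, mem_filter, mem_filter, mem_Ioc, mem_Ioc]
        obtain ⟨⟨⟨a1, a2⟩, a3⟩, a4⟩ := hp
        exact ⟨⟨by omega, a4 ▸ Nat.gcd_dvd_left _ _⟩, by omega, a4 ▸ Nat.gcd_dvd_right _ _⟩
      have e2 := card_le_card e1
      rw [card_product, Nat.Ioc_filter_dvd_card_eq_div] at e2
      have e3 : (((2 * Q / g : ℕ)) : ℝ) ≤ 2 * Q / g := by
        refine Nat.cast_div_le.trans (le_of_eq ?_)
        push_cast
        ring
      calc _ ≤ (((2 * Q / g) * (2 * Q / g) : ℕ) : ℝ) := by exact_mod_cast e2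
        _ = (((2 * Q / g : ℕ)) : ℝ) * (((2 * Q / g : ℕ)) : ℝ) := by push_cast; ring
        _ ≤ (2 * Q / g) * (2 * Q / g) := by gcongr
        _ = _ := by field_simp; ring
    refine (sum_le_sum h2).trans ?_
    rw [← mul_sum]
    have h4 : ∑ g ∈ Ioc G (2 * Q), ((g : ℝ) ^ 2)⁻¹ ≤ 1 / G := by
      have := sum_Ioc_inv_sq_le_sub (α := ℝ) (by omega : G ≠ 0) hGQ
      have h3 : (0 : ℝ) ≤ ((2 * Q : ℕ) : ℝ)⁻¹ := by positivity
      rw [one_div]
      linarith
    calc 4 * (Q : ℝ) ^ 2 * ∑ g ∈ Ioc G (2 * Q), ((g : ℝ) ^ 2)⁻¹ ≤ 4 * (Q : ℝ) ^ 2 * (1 / G) :=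
          mul_le_mul_of_nonneg_left h4 (by positivity)
      _ = 4 * Q ^ 2 / G := by ring
  · have : ((Ioc Q (2 * Q)) ×ˢ (Ioc Q (2 * Q))).filter (fun p => G < Nat.gcd p.1 p.2) = ∅ := by
      rw [filter_eq_empty_iff]
      intro p hp
      rw [mem_product, mem_Ioc, mem_Ioc] at hp
      have := Nat.gcd_le_left p.2 (by omega : 0 < p.1)
      omega
    rw [this, card_empty, Nat.cast_zero]
    positivity

end Pool.Agent.Helper34.OP
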