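import Mathlib
import Pool.Agent.Helper34.OP.C1

set_option autoImplicit false

/-! The number of the quadruples with a common point. -/

namespace Pool.Agent.Helper34.OP
open Finset
open Pool.Agent.Helper34.NQ (run mem_run card_run slopes sum_inv_sq')

/-- the pairs of divisors for two given windows -/
noncomputable def RR (H Q : ℕ) (y y' : ℤ) : Finset (ℕ × ℕ) := by
  classical
  exact ((Ioc Q (2 * Q)) ×ˢ (Ioc Q (2 * Q))).filter (fun p => ∃ m, m ∈ run y H p.1 ∧ m ∈ run y' H p.2)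

lemma mem_RR {H Q : ℕ} {y y' : ℤ} {p : ℕ × ℕ} :
    p ∈ RR H Q y y' ↔ ((Q < p.1 ∧ p.1 ≤ 2 * Q) ∧ (Q < p.2 ∧ p.2 ≤ 2 * Q)) ∧ ∃ m, m ∈ run y H p.1 ∧ m ∈ run y' H p.2 := by
  unfold RR
  rw [mem_filter, mem_product, mem_Ioc, mem_Ioc]

/-- the pairs of divisors with a small common divisor -/
lemma small_gcd {H Q Y G : ℕ} {y y' : ℤ} (hQ : 1 ≤ Q) (hQH : Q ≤ H) (hHY : 2 * H ^ 2 ≤ Y)
    (hy : (Y : ℤ) ≤ y) (hy2 : y ≤ 9 * Y) (hy' : (Y : ℤ) ≤ y') :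
    ((((RR H Q y y')).filter (fun p => Nat.gcd p.1 p.2 ≤ G)).card : ℝ) ≤ 88 * (H * Q ^ 2 / Y) + 2 * G := by
  classical
  have hQ0 : (0 : ℝ) < Q := by exact_mod_cast hQ
  have hH1 : 1 ≤ H := by omega
  have hH0 : (1 : ℝ) ≤ H := by exact_mod_cast hH1
  have hHY' : (2 : ℝ) * H ^ 2 ≤ Y := by exact_mod_cast hHY
  have hY1 : (H : ℝ) ≤ Y := by nlinarith
  have hY0 : (0 : ℝ) < Y := by linarith
  have hyr : (Y : ℝ) ≤ y := by exact_mod_cast hy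
  have hyr2 : (y : ℝ) ≤ 9 * Y := by exact_mod_cast hy2
  have hyr' : (Y : ℝ) ≤ y' := by exact_mod_cast hy'
  have hy0 : (0 : ℝ) < y := by linarith
  have hy0' : (0 : ℝ) < y' := by linarith
  have hgc : ∀ p ∈ (RR H Q y y').filter (fun p => Nat.gcd p.1 p.2 ≤ G), Nat.gcd p.1 p.2 ∈ Icc 1 G := by
    intro p hp
    rw [mem_filter, mem_RR] at hp
    rw [mem_Icc]
    exact ⟨Nat.gcd_pos_of_pos_left _ (by omega), hp.2⟩
  obtain ⟨A, hA⟩ : ∃ A : ℝ, A = y / (y' + H) := ⟨_, rfl⟩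
  obtain ⟨B, hB⟩ : ∃ B : ℝ, B = (y + H) / y' := ⟨_, rfl⟩
  have hAB : B - A ≤ 11 * (H / Y) := by
    have e1 : B - A = H * ((y + y' + H) / (y' * (y' + H))) := by
      rw [hA, hB]
      field_simp
      ring
    rw [e1, mul_div_assoc']
    rw [mul_div_assoc', div_le_div_iff₀ (by positivity) hY0]
    have e2 : ((y : ℝ) + y' + H) * Y ≤ 11 * (y' * (y' + H)) := by
      have a1 : (y : ℝ) * Y ≤ 9 * (y' * y') := by
        calc (y : ℝ) * Y ≤ (9 * Y) * Y := by gcongr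
          _ = 9 * (Y * Y) := by ring
          _ ≤ 9 * (y' * y') := by gcongr
      have a2 : (y' : ℝ) * Y ≤ y' * y' := by gcongr
      have a3 : (H : ℝ) * Y ≤ H * y' := by gcongr
      have a4 : (0 : ℝ) ≤ H * y' := by positivity
      nlinarith
    calc (H : ℝ) * (y + y' + H) * Y = H * ((y + y' + H) * Y) := by ring
      _ ≤ H * (11 * (y' * (y' + H))) := by gcongr
      _ = _ := by ring
  have hAB0 : A ≤ B := by
    rw [hA, hB, div_le_div_iff₀ (by positivity) hy0']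
    have : (0 : ℝ) ≤ H * (y + y' + H) := by positivity
    nlinarith
  have hsl : ∀ p ∈ RR H Q y y', A ≤ (p.1 : ℝ) / p.2 ∧ (p.1 : ℝ) / p.2 ≤ B := by
    intro p hp
    rw [mem_RR] at hp
    obtain ⟨⟨⟨a1, a2⟩, a3, a4⟩, m, a5, a6⟩ := hp
    rw [mem_run (by omega)] at a5 a6
    have hp1 : (0 : ℝ) < p.1 := by exact_mod_cast (by omega : 0 < p.1)
    have hp2 : (0 : ℝ) < p.2 := by exact_mod_cast (by omega : 0 < p.2)
    have b1 : (y : ℝ) < p.1 * m := by exact_mod_cast a5.1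
    have b2 : (p.1 : ℝ) * m ≤ y + H := by exact_mod_cast a5.2
    have b3 : (y' : ℝ) < p.2 * m := by exact_mod_cast a6.1
    have b4 : (p.2 : ℝ) * m ≤ y' + H := by exact_mod_cast a6.2
    constructor
    · rw [hA, div_le_div_iff₀ (by positivity) hp2]
      -- y p2 ≤ p1 (y' + H)
      have hm0 : (0 : ℝ) < m := by
        have : (0 : ℝ) < p.1 * m := by linarith
        exact pos_of_mul_pos_right this hp1.le
      have c1 : (y : ℝ) * p.2 * m ≤ p.1 * (y' + H) * m := by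
        calc (y : ℝ) * p.2 * m = y * (p.2 * m) := by ring
          _ ≤ (p.1 * m) * (y' + H) := by
              apply mul_le_mul b1.le b4 (by positivity) (by positivity)
          _ = _ := by ring
      exact le_of_mul_le_mul_right c1 hm0
    · rw [hB, div_le_div_iff₀ hp2 hy0']
      have hm0 : (0 : ℝ) < m := by
        have : (0 : ℝ) < p.1 * m := by linarith
        exact pos_of_mul_pos_right this hp1.le
      have c1 : (p.1 : ℝ) * y' * m ≤ (y + H) * p.2 * m := by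
        calc (p.1 : ℝ) * y' * m = (p.1 * m) * y' := by ring
          _ ≤ (y + H) * (p.2 * m) := by
              apply mul_le_mul b2 b3.le (by positivity) (by positivity)
          _ = _ := by ring
      exact le_of_mul_le_mul_right c1 hm0
  have h1 : ((((RR H Q y y')).filter (fun p => Nat.gcd p.1 p.2 ≤ G)).card : ℝ) =
      ∑ g ∈ Icc 1 G, (((((RR H Q y y')).filter (fun p => Nat.gcd p.1 p.2 ≤ G)).filter (fun p => Nat.gcd p.1 p.2 = g)).card : ℝ) := by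
    rw [card_eq_sum_card_fiberwise hgc]
    push_cast
    rfl
  have h2 : ∀ g ∈ Icc 1 G, (((((RR H Q y y')).filter (fun p => Nat.gcd p.1 p.2 ≤ G)).filter (fun p => Nat.gcd p.1 p.2 = g)).card : ℝ) ≤
      44 * (H * Q ^ 2 / Y) * (1 / (g : ℝ) ^ 2) + 2 := by
    intro g hg
    rw [mem_Icc] at hg
    have hg0 : (0 : ℝ) < g := by exact_mod_cast hg.1
    have c1 := slopes (V := 2 * Q) hg.1 (by omega)
      (((RR H Q y y').filter (fun p => Nat.gcd p.1 p.2 ≤ G)).filter (fun p => Nat.gcd p.1 p.2 = g)) ?_ A B hAB0 ?_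
    · refine c1.trans ?_
      have : (B - A) * (((2 * Q : ℕ) : ℝ) ^ 2 / g ^ 2) ≤ 11 * (H / Y) * (((2 * Q : ℕ) : ℝ) ^ 2 / g ^ 2) := by gcongr
      have e : 11 * ((H : ℝ) / Y) * (((2 * Q : ℕ) : ℝ) ^ 2 / g ^ 2) = 44 * (H * Q ^ 2 / Y) * (1 / (g : ℝ) ^ 2) := by
        push_cast
        field_simp
        ring
      linarith
    · intro p hp
      rw [mem_filter, mem_filter, mem_RR] at hp
      exact ⟨hp.2, by omega, hp.1.1.1.2.2⟩
    · intro p hp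
      rw [mem_filter, mem_filter] at hp
      exact hsl p hp.1.1
  rw [h1]
  refine (sum_le_sum h2).trans ?_
  rw [sum_add_distrib, ← mul_sum, sum_const, Nat.card_Icc, Nat.add_sub_cancel, nsmul_eq_mul]
  have h3 := sum_inv_sq' G
  have h4 : (0 : ℝ) ≤ 44 * (H * Q ^ 2 / Y) := by positivity
  nlinarith

/-- the number of the quadruples -/
lemma quad {W : Finset ℤ} {H Q Y G : ℕ} (hQ : 1 ≤ Q) (hQH : Q ≤ H) (hHY : 2 * H ^ 2 ≤ Y) (hG : 1 ≤ G)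
    (hW : ∀ y ∈ W, (Y : ℤ) ≤ y ∧ y ≤ 9 * Y) (hsep : ∀ x ∈ W, ∀ y ∈ W, x ≠ y → (H : ℤ) ≤ |x - y|) :
    ∑ q ∈ Ioc Q (2 * Q), ∑ r ∈ Ioc Q (2 * Q), ((MM W H q r).card : ℝ) ≤
      W.card * Q + W.card ^ 2 * (88 * (H * Q ^ 2 / Y) + 2 * G) + 16 * (W.card * (Q ^ 2 / G)) := by
  classical
  have hG0 : (0 : ℝ) < G := by exact_mod_cast hG
  have hY0 : (0 : ℝ) ≤ Y := Nat.cast_nonneg _
  -- split
  have h0 : ∑ q ∈ Ioc Q (2 * Q), ∑ r ∈ Ioc Q (2 * Q), ((MM W H q r).card : ℝ) =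
      ∑ p ∈ (Ioc Q (2 * Q)) ×ˢ (Ioc Q (2 * Q)), ((MM W H p.1 p.2).card : ℝ) := by
    rw [sum_product]
  rw [h0, ← sum_filter_add_sum_filter_not _ (fun p : ℕ × ℕ => Nat.gcd p.1 p.2 ≤ G)]
  have h1 : ∑ p ∈ ((Ioc Q (2 * Q)) ×ˢ (Ioc Q (2 * Q))).filter (fun p => ¬ Nat.gcd p.1 p.2 ≤ G), ((MM W H p.1 p.2).card : ℝ) ≤
      16 * (W.card * (Q ^ 2 / G)) := by
    have e1 : ∀ p ∈ ((Ioc Q (2 * Q)) ×ˢ (Ioc Q (2 * Q))).filter (fun p => ¬ Nat.gcd p.1 p.2 ≤ G),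
        ((MM W H p.1 p.2).card : ℝ) ≤ 4 * W.card := by
      intro p hp
      rw [mem_filter, mem_product, mem_Ioc, mem_Ioc] at hp
      exact_mod_cast MM_card (by omega) hsep hp.1.1.1 hp.1.2.1 hp.1.1.2
    refine (sum_le_sum e1).trans ?_
    rw [sum_const, nsmul_eq_mul]
    have e2 := big_gcd (Q := Q) hG
    have e3 : ((((Ioc Q (2 * Q)) ×ˢ (Ioc Q (2 * Q))).filter (fun p => ¬ Nat.gcd p.1 p.2 ≤ G)).card : ℝ) =
        ((((Ioc Q (2 * Q)) ×ˢ (Ioc Q (2 * Q))).filter (fun p => G < Nat.gcd p.1 p.2)).card : ℝ) := by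
      congr 2
      ext p
      rw [mem_filter, mem_filter, not_le]
    rw [e3]
    calc _ ≤ 4 * (Q : ℝ) ^ 2 / G * (4 * W.card) := mul_le_mul_of_nonneg_right e2 (by positivity)
      _ = _ := by ring
  have h2 : ∑ p ∈ ((Ioc Q (2 * Q)) ×ˢ (Ioc Q (2 * Q))).filter (fun p => Nat.gcd p.1 p.2 ≤ G), ((MM W H p.1 p.2).card : ℝ) ≤
      W.card * Q + W.card ^ 2 * (88 * (H * Q ^ 2 / Y) + 2 * G) := by
    have e1 : ∀ p : ℕ × ℕ, ((MM W H p.1 p.2).card : ℝ) = ∑ z ∈ W ×ˢ W, if (∃ m, m ∈ run z.1 H p.1 ∧ m ∈ run z.2 H p.2) then (1 : ℝ) else 0 := by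
      intro p
      rw [← sum_filter, sum_const, nsmul_eq_mul, mul_one]
      congr 2
    rw [sum_congr rfl (fun p _ => e1 p), sum_comm, ← sum_filter_add_sum_filter_not _ (fun z : ℤ × ℤ => z.1 = z.2)]
    have e2 : ∀ z ∈ (W ×ˢ W).filter (fun z : ℤ × ℤ => z.1 = z.2),
        ∑ p ∈ ((Ioc Q (2 * Q)) ×ˢ (Ioc Q (2 * Q))).filter (fun p => Nat.gcd p.1 p.2 ≤ G),
          (if (∃ m, m ∈ run z.1 H p.1 ∧ m ∈ run z.2 H p.2) then (1 : ℝ) else 0) ≤ Q := by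
      rintro ⟨y, y'⟩ hz
      rw [mem_filter, mem_product] at hz
      obtain ⟨⟨z1, z2⟩, z3⟩ := hz
      simp only at z1 z2 z3 ⊢
      subst z3
      rw [← sum_filter, sum_const, nsmul_eq_mul, mul_one]
      have f1 : (((Ioc Q (2 * Q)) ×ˢ (Ioc Q (2 * Q))).filter (fun p => Nat.gcd p.1 p.2 ≤ G)).filter
          (fun p => ∃ m, m ∈ run y H p.1 ∧ m ∈ run y H p.2) ⊆ (Ioc Q (2 * Q)).image (fun q => (q, q)) := by
        rintro ⟨q, r⟩ hp
        rw [mem_filter, mem_filter, mem_product, mem_Ioc, mem_Ioc] at hp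
        obtain ⟨⟨⟨b1, b2⟩, _⟩, m, b3, b4⟩ := hp
        simp only at b1 b2 b3 b4
        have := same_y b1.1 b2.1 b1.2 b2.2 hQH hHY (hW y z1).1 b3 b4
        rw [mem_image]
        exact ⟨q, by rw [mem_Ioc]; exact b1, by rw [this]⟩
      have f2 := (card_le_card f1).trans card_image_le
      rw [Nat.card_Ioc] at f2
      exact_mod_cast f2.trans (by omega)
    have e3 : ∀ z ∈ (W ×ˢ W).filter (fun z : ℤ × ℤ => ¬ z.1 = z.2),
        ∑ p ∈ ((Ioc Q (2 * Q)) ×ˢ (Ioc Q (2 * Q))).filter (fun p => Nat.gcd p.1 p.2 ≤ G),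
          (if (∃ m, m ∈ run z.1 H p.1 ∧ m ∈ run z.2 H p.2) then (1 : ℝ) else 0) ≤ 88 * (H * Q ^ 2 / Y) + 2 * G := by
      intro z hz
      rw [mem_filter, mem_product] at hz
      rw [← sum_filter, sum_const, nsmul_eq_mul, mul_one]
      refine le_trans (le_of_eq ?_) (small_gcd hQ hQH hHY (hW _ hz.1.1).1 (hW _ hz.1.1).2 (hW _ hz.1.2).1)
      congr 2
      ext p
      rw [mem_filter, mem_filter, mem_filter, mem_RR, mem_product, mem_Ioc, mem_Ioc]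
      tauto
    have e4 : (((W ×ˢ W).filter (fun z : ℤ × ℤ => z.1 = z.2)).card : ℝ) ≤ W.card := by
      have : (W ×ˢ W).filter (fun z : ℤ × ℤ => z.1 = z.2) ⊆ W.image (fun y => (y, y)) := by
        rintro ⟨y, y'⟩ hz
        rw [mem_filter, mem_product] at hz
        simp only at hz
        rw [mem_image]
        exact ⟨y, hz.1.1, by rw [hz.2]⟩
      exact_mod_cast (card_le_card this).trans card_image_le
    have e5 : (((W ×ˢ W).filter (fun z : ℤ × ℤ => ¬ z.1 = z.2)).card : ℝ) ≤ (W.card : ℝ) ^ 2 := by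
      have := card_filter_le (W ×ˢ W) (fun z : ℤ × ℤ => ¬ z.1 = z.2)
      rw [card_product] at this
      rw [sq]
      exact_mod_cast this
    have e6 : (0 : ℝ) ≤ 88 * (H * Q ^ 2 / Y) + 2 * G := by positivity
    refine (add_le_add (sum_le_sum e2) (sum_le_sum e3)).trans ?_
    rw [sum_const, sum_const, nsmul_eq_mul, nsmul_eq_mul]
    exact add_le_add (mul_le_mul_of_nonneg_right e4 (Nat.cast_nonneg _)) (mul_le_mul_of_nonneg_right e5 e6)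
  linarith

/-- the number of the quadruples for `s²` windows -/
lemma quad_s {W : Finset ℤ} {H Q Y s : ℕ} (hQ : 1 ≤ Q) (hQH : Q ≤ H) (hHY : 2 * H ^ 2 ≤ Y) (hs : 1 ≤ s) (hsQ : s ≤ Q)
    (hsY : Y ≤ s * H * Q) (hW : ∀ y ∈ W, (Y : ℤ) ≤ y ∧ y ≤ 9 * Y)
    (hsep : ∀ x ∈ W, ∀ y ∈ W, x ≠ y → (H : ℤ) ≤ |x - y|) (hc : W.card = s ^ 2) :
    ∑ q ∈ Ioc Q (2 * Q), ∑ r ∈ Ioc Q (2 * Q), ((MM W H q r).card : ℝ) ≤ 123 * ((s : ℝ) ^ 4 * (H * Q ^ 2 / Y)) := by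
  have hG : 1 ≤ Q / s := Nat.div_pos hsQ (by omega)
  refine (quad hQ hQH hHY hG hW hsep).trans ?_
  obtain ⟨G, hGd⟩ : ∃ G, G = Q / s := ⟨_, rfl⟩
  rw [← hGd] at hG ⊢
  have hs0 : (1 : ℝ) ≤ s := by exact_mod_cast hs
  have hQ0 : (0 : ℝ) < Q := by exact_mod_cast hQ
  have hG0 : (0 : ℝ) < G := by exact_mod_cast hG
  have hH1 : 1 ≤ H := by omega
  have hHpos : (1 : ℝ) ≤ H := by exact_mod_cast hH1
  have hYn : 0 < Y := by
    have : 0 < H ^ 2 := by positivity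
    omega
  have hY0 : (0 : ℝ) < Y := by exact_mod_cast hYn
  have g1 : (G : ℝ) * s ≤ Q := by
    have : G * s ≤ Q := by rw [hGd]; exact Nat.div_mul_le_self Q s
    exact_mod_cast this
  have g2 : (Q : ℝ) ≤ 2 * (G * s) := by
    have h1 : Q < s * (Q / s + 1) := Nat.lt_mul_div_succ Q (by omega)
    have h2 : Q ≤ 2 * (G * s) := by
      rw [← hGd] at h1
      nlinarith
    exact_mod_cast h2
  have hsY' : (Y : ℝ) ≤ s * H * Q := by exact_mod_cast hsY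
  rw [hc]
  push_cast
  obtain ⟨K, hK⟩ : ∃ K : ℝ, K = (s : ℝ) ^ 4 * (H * Q ^ 2 / Y) := ⟨_, rfl⟩
  have k1 : (s : ℝ) ^ 3 * Q ≤ K := by
    rw [hK, mul_div_assoc', le_div_iff₀ hY0]
    calc (s : ℝ) ^ 3 * Q * Y ≤ (s : ℝ) ^ 3 * Q * (s * H * Q) := by gcongr
      _ = _ := by ring
  have k2 : (s : ℝ) ^ 2 * Q ≤ s ^ 3 * Q := by
    have : (s : ℝ) ^ 2 ≤ s ^ 3 := pow_le_pow_right₀ hs0 (by norm_num)
    gcongr
  have k3 : ((s : ℝ) ^ 2) ^ 2 * (2 * G) ≤ 2 * (s ^ 3 * Q) := by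
    calc ((s : ℝ) ^ 2) ^ 2 * (2 * G) = 2 * ((s : ℝ) ^ 3 * (G * s)) := by ring
      _ ≤ 2 * ((s : ℝ) ^ 3 * Q) := by gcongr
  have k4 : (s : ℝ) ^ 2 * ((Q : ℝ) ^ 2 / G) ≤ 2 * (s ^ 3 * Q) := by
    rw [mul_div_assoc', div_le_iff₀ hG0]
    calc (s : ℝ) ^ 2 * (Q : ℝ) ^ 2 = (s : ℝ) ^ 2 * Q * Q := by ring
      _ ≤ (s : ℝ) ^ 2 * Q * (2 * (G * s)) := by gcongr
      _ = _ := by ring
  have k5 : ((s : ℝ) ^ 2) ^ 2 * (88 * (H * Q ^ 2 / Y) + 2 * G) = 88 * K + ((s : ℝ) ^ 2) ^ 2 * (2 * G) := by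
    rw [hK]
    ring
  rw [k5, ← hK]
  linarith

end Pool.Agent.Helper34.OP
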