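import Mathlib
import Pool.Agent.Helper34.OP.C2
import Pool.Agent.Helper34.NQ.B3

set_option autoImplicit false

/-! The block theorem for separated windows. -/

namespace Pool.Agent.Helper34.OP
open Finset
open Pool.Agent.Helper34.NQ (run mem_run card_run Lz AJ AJ_abs short long_short)

/-- the number of the windows whose run has `m` -/
noncomputable def wW (W : Finset ℤ) (H q : ℕ) (m : ℤ) : ℝ := ∑ y ∈ W, if m ∈ run y H q then (1 : ℝ) else 0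

/-- one pair of divisors -/
lemma pair_sumW {W : Finset ℤ} {H Q q r : ℕ} (M : ℤ) (hQ : 1 ≤ Q) (hq1 : Q ≤ q) (hQH : Q ≤ H) :
    ∑ m ∈ Icc 1 M, wW W H q m * wW W H r m ≤ (MM W H q r).card * (2 * (H / Q)) := by
  classical
  have hQ0 : (0 : ℝ) < Q := by exact_mod_cast hQ
  have hq0 : (0 : ℝ) < q := lt_of_lt_of_le hQ0 (by exact_mod_cast hq1)
  have h1 : ∑ m ∈ Icc 1 M, wW W H q m * wW W H r m =
      ∑ p ∈ W ×ˢ W, ∑ m ∈ Icc 1 M,
        (if m ∈ run p.1 H q then (1 : ℝ) else 0) * (if m ∈ run p.2 H r then (1 : ℝ) else 0) := by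
    rw [sum_comm]
    apply sum_congr rfl
    intro m _
    unfold wW
    rw [sum_mul_sum, sum_product]
  rw [h1, ← sum_filter_add_sum_filter_not _ (fun p : ℤ × ℤ => ∃ m, m ∈ run p.1 H q ∧ m ∈ run p.2 H r)]
  have h2 : ∑ p ∈ (W ×ˢ W).filter (fun p : ℤ × ℤ => ¬ ∃ m, m ∈ run p.1 H q ∧ m ∈ run p.2 H r),
      ∑ m ∈ Icc 1 M, (if m ∈ run p.1 H q then (1 : ℝ) else 0) * (if m ∈ run p.2 H r then (1 : ℝ) else 0) = 0 := by
    apply sum_eq_zero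
    intro p hp
    rw [mem_filter] at hp
    apply sum_eq_zero
    intro m _
    by_cases c1 : m ∈ run p.1 H q
    · by_cases c2 : m ∈ run p.2 H r
      · exact absurd ⟨m, c1, c2⟩ hp.2
      · rw [if_neg c2, mul_zero]
    · rw [if_neg c1, zero_mul]
  rw [h2, add_zero]
  have h0 : ((W ×ˢ W).filter (fun p : ℤ × ℤ => ∃ m, m ∈ run p.1 H q ∧ m ∈ run p.2 H r)) = MM W H q r := by
    ext p
    rw [mem_MM, mem_filter, mem_product]
  rw [h0]
  have h3 : ∀ p ∈ MM W H q r,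
      ∑ m ∈ Icc 1 M, (if m ∈ run p.1 H q then (1 : ℝ) else 0) * (if m ∈ run p.2 H r then (1 : ℝ) else 0) ≤
        2 * (H / Q) := by
    intro p _
    calc ∑ m ∈ Icc 1 M, (if m ∈ run p.1 H q then (1 : ℝ) else 0) * (if m ∈ run p.2 H r then (1 : ℝ) else 0)
        ≤ ∑ m ∈ Icc 1 M, (if m ∈ run p.1 H q then (1 : ℝ) else 0) := by
          apply sum_le_sum
          intro m _
          split_ifs <;> norm_num
      _ = (((Icc 1 M).filter (fun m => m ∈ run p.1 H q)).card : ℝ) := by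
          rw [← sum_filter, sum_const, nsmul_eq_mul, mul_one]
      _ ≤ ((run p.1 H q).card : ℝ) := by
          have : (Icc 1 M).filter (fun m => m ∈ run p.1 H q) ⊆ run p.1 H q := by
            intro m hm
            exact (mem_filter.1 hm).2
          exact_mod_cast card_le_card this
      _ ≤ 2 * (H / Q) := by
          have e1 := (abs_le.1 (card_run p.1 (H := H) (by omega : 1 ≤ q))).2
          have e2 : (H : ℝ) / q ≤ H / Q := by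
            apply div_le_div_of_nonneg_left (Nat.cast_nonneg _) hQ0
            exact_mod_cast hq1
          have e3 : 1 ≤ (H : ℝ) / Q := by
            rw [le_div_iff₀ hQ0]
            rw [one_mul]
            exact_mod_cast hQH
          linarith
  refine (sum_le_sum h3).trans (le_of_eq ?_)
  rw [sum_const, nsmul_eq_mul]

/-- the second moment -/
theorem secondW {W : Finset ℤ} {H Q Y s : ℕ} (M : ℤ) (hQ : 1 ≤ Q) (hQH : Q ≤ H) (hHY : 2 * H ^ 2 ≤ Y) (hs : 1 ≤ s) (hsQ : s ≤ Q)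
    (hsY : Y ≤ s * H * Q) (hW : ∀ y ∈ W, (Y : ℤ) ≤ y ∧ y ≤ 9 * Y)
    (hsep : ∀ x ∈ W, ∀ y ∈ W, x ≠ y → (H : ℤ) ≤ |x - y|) (hc : W.card = s ^ 2) :
    ∑ m ∈ Icc 1 M, (∑ q ∈ Ioc Q (2 * Q), wW W H q m) ^ 2 ≤
      (2 * ((H : ℝ) / Q)) * (123 * ((s : ℝ) ^ 4 * (H * Q ^ 2 / Y))) := by
  classical
  have h1 : ∑ m ∈ Icc 1 M, (∑ q ∈ Ioc Q (2 * Q), wW W H q m) ^ 2 =
      ∑ q ∈ Ioc Q (2 * Q), ∑ r ∈ Ioc Q (2 * Q), ∑ m ∈ Icc 1 M, wW W H q m * wW W H r m := by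
    have e : ∀ m ∈ Icc 1 M, (∑ q ∈ Ioc Q (2 * Q), wW W H q m) ^ 2 =
        ∑ q ∈ Ioc Q (2 * Q), ∑ r ∈ Ioc Q (2 * Q), wW W H q m * wW W H r m := by
      intro m _
      rw [sq, sum_mul_sum]
    rw [sum_congr rfl e, sum_comm]
    apply sum_congr rfl
    intro q _
    rw [sum_comm]
  rw [h1]
  have h2 : ∀ q ∈ Ioc Q (2 * Q), ∀ r ∈ Ioc Q (2 * Q), ∑ m ∈ Icc 1 M, wW W H q m * wW W H r m ≤
      (2 * ((H : ℝ) / Q)) * (MM W H q r).card := by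
    intro q hq r _
    rw [mem_Ioc] at hq
    refine (pair_sumW M hQ hq.1.le hQH).trans (le_of_eq ?_)
    rw [mul_comm]
  refine (sum_le_sum (fun q hq => sum_le_sum (fun r hr => h2 q hq r hr))).trans ?_
  have h3 : ∑ q ∈ Ioc Q (2 * Q), ∑ r ∈ Ioc Q (2 * Q), (2 * ((H : ℝ) / Q)) * ((MM W H q r).card : ℝ) =
      (2 * ((H : ℝ) / Q)) * ∑ q ∈ Ioc Q (2 * Q), ∑ r ∈ Ioc Q (2 * Q), ((MM W H q r).card : ℝ) := by
    rw [mul_sum]
    apply sum_congr rfl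
    intro q _
    rw [mul_sum]
  rw [h3]
  exact mul_le_mul_of_nonneg_left (quad_s hQ hQH hHY hs hsQ hsY hW hsep hc) (by positivity)

/-- the block theorem -/
theorem blockW (η : ℝ) (hη : 0 < η) : ∃ C : ℝ, 1 ≤ C ∧ ∃ Y₀ : ℕ, ∀ Y : ℕ, Y₀ ≤ Y →
    ∀ H Q s : ℕ, 1 ≤ s → s ≤ Q → C * Q ≤ H → 2 * H ^ 2 ≤ Y → Y ≤ s * H * Q → ∀ W : Finset ℤ,
      (∀ y ∈ W, (Y : ℤ) ≤ y ∧ y ≤ 9 * Y) → (∀ x ∈ W, ∀ y ∈ W, x ≠ y → (H : ℤ) ≤ |x - y|) → W.card = s ^ 2 →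
      ∑ y ∈ W, ∑ q ∈ Ioc Q (2 * Q), |∑ m ∈ run y H q, Lz m| ≤ η * ((s : ℝ) ^ 2 * H) := by
  classical
  obtain ⟨δ, hδ⟩ : ∃ δ : ℝ, δ = η ^ 2 / 39360 := ⟨_, rfl⟩
  have hδ0 : 0 < δ := by rw [hδ]; positivity
  obtain ⟨J, M₀, hJ2, hJ⟩ := short δ hδ0
  have hJ0 : (2 : ℝ) ≤ J := by exact_mod_cast hJ2
  refine ⟨8 * J / η + 1, by have : 0 ≤ 8 * J / η := by positivity
                            linarith, M₀ ^ 2, ?_⟩
  intro Y hY H Q s hs hsQ hCQ hHY hsY W hW hsep hc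
  have hQ : 1 ≤ Q := by omega
  have hQ0 : (0 : ℝ) < Q := by exact_mod_cast hQ
  have hQH' : (Q : ℝ) ≤ H := by
    have : 0 ≤ 8 * J / η * Q := by positivity
    linarith
  have hQH : Q ≤ H := by exact_mod_cast hQH'
  have hH0 : (0 : ℝ) < H := by linarith
  have hHpos : 1 ≤ H := by omega
  have hYn : 0 < Y := by
    have : 0 < H ^ 2 := by positivity
    omega
  have hY0 : (0 : ℝ) < Y := by exact_mod_cast hYn
  have hs0 : (1 : ℝ) ≤ s := by exact_mod_cast hs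
  have hHYle : H ≤ Y := by nlinarith
  obtain ⟨M, hM⟩ : ∃ M : ℕ, M = (9 * Y + H) / Q := ⟨_, rfl⟩
  have hMM₀ : M₀ ≤ M := by
    rw [hM]
    apply (Nat.le_div_iff_mul_le hQ).2
    have e1 : (M₀ * Q) ^ 2 ≤ Y ^ 2 := by
      calc (M₀ * Q) ^ 2 = M₀ ^ 2 * Q ^ 2 := by ring
        _ ≤ Y * H ^ 2 := by
            apply Nat.mul_le_mul hY
            exact Nat.pow_le_pow_left hQH 2
        _ ≤ Y * Y := Nat.mul_le_mul_left _ (by omega)
        _ = Y ^ 2 := by ring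
    have e2 : M₀ * Q ≤ Y := by
      by_contra hcon
      push Not at hcon
      have := Nat.pow_lt_pow_left hcon (by norm_num : (2 : ℕ) ≠ 0)
      omega
    omega
  have hMle : (M : ℝ) ≤ 10 * Y / Q := by
    rw [hM]
    refine Nat.cast_div_le.trans ?_
    push_cast
    have : (H : ℝ) ≤ Y := by exact_mod_cast hHYle
    gcongr
    linarith
  have hA := hJ M hMM₀
  -- the sum over the runs
  have hsub : ∀ y ∈ W, ∀ q ∈ Ioc Q (2 * Q), run y H q ⊆ Icc (1 : ℤ) M := by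
    intro y hy q hq m hm
    rw [mem_Ioc] at hq
    rw [mem_run (by omega)] at hm
    obtain ⟨w1, w2⟩ := hW y hy
    have hq0 : (0 : ℤ) < q := by exact_mod_cast (by omega : 0 < q)
    have hY1 : (1 : ℤ) ≤ Y := by exact_mod_cast hYn
    have hm1 : 1 ≤ m := by
      by_contra hcon
      have h1 : m ≤ 0 := by omega
      have : (q : ℤ) * m ≤ 0 := mul_nonpos_of_nonneg_of_nonpos hq0.le h1
      linarith [hm.1]
    rw [mem_Icc]
    refine ⟨hm1, ?_⟩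
    rw [hM, Int.natCast_ediv, Int.le_ediv_iff_mul_le (by exact_mod_cast hQ)]
    have e1 : m * Q ≤ q * m := by
      have : (Q : ℤ) ≤ q := by exact_mod_cast hq.1.le
      nlinarith
    push_cast
    linarith [hm.2]
  have h1 : ∑ y ∈ W, ∑ q ∈ Ioc Q (2 * Q), |∑ m ∈ run y H q, Lz m| ≤
      2 / J * ∑ y ∈ W, ∑ q ∈ Ioc Q (2 * Q), ∑ m ∈ run y H q, |AJ J m| + 4 * J * ((s : ℝ) ^ 2 * Q) := by
    have e1 : ∀ y ∈ W, ∑ q ∈ Ioc Q (2 * Q), |∑ m ∈ run y H q, Lz m| ≤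
        2 / J * ∑ q ∈ Ioc Q (2 * Q), ∑ m ∈ run y H q, |AJ J m| + Q * (4 * J) := by
      intro y _
      have e2 : ∀ q ∈ Ioc Q (2 * Q), |∑ m ∈ run y H q, Lz m| ≤ 2 / J * ∑ m ∈ run y H q, |AJ J m| + 4 * J := by
        intro q hq
        rw [mem_Ioc] at hq
        apply long_short J hJ2
        exact Int.ediv_le_ediv (by exact_mod_cast (by omega : 0 < q)) (by omega)
      refine (sum_le_sum e2).trans (le_of_eq ?_)
      rw [sum_add_distrib, ← mul_sum, sum_const, nsmul_eq_mul, Nat.card_Ioc]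
      have : ((2 * Q - Q : ℕ) : ℝ) = Q := by
        congr 1
        omega
      rw [this]
    refine (sum_le_sum e1).trans (le_of_eq ?_)
    rw [sum_add_distrib, ← mul_sum, sum_const, nsmul_eq_mul, hc]
    push_cast
    ring
  have h2 : ∑ y ∈ W, ∑ q ∈ Ioc Q (2 * Q), ∑ m ∈ run y H q, |AJ J m| =
      ∑ m ∈ Icc (1 : ℤ) M, (∑ q ∈ Ioc Q (2 * Q), wW W H q m) * |AJ J m| := by
    have e1 : ∀ y ∈ W, ∑ q ∈ Ioc Q (2 * Q), ∑ m ∈ run y H q, |AJ J m| =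
        ∑ q ∈ Ioc Q (2 * Q), ∑ m ∈ Icc (1 : ℤ) M, (if m ∈ run y H q then (1 : ℝ) else 0) * |AJ J m| := by
      intro y hy
      apply sum_congr rfl
      intro q hq
      rw [← sum_filter_add_sum_filter_not (Icc (1 : ℤ) M) (fun m => m ∈ run y H q)]
      have e2 : (Icc (1 : ℤ) M).filter (fun m => m ∈ run y H q) = run y H q := by
        ext m
        rw [mem_filter]
        exact ⟨fun h => h.2, fun h => ⟨hsub y hy q hq h, h⟩⟩
      have e3 : ∑ m ∈ (Icc (1 : ℤ) M).filter (fun m => ¬ m ∈ run y H q),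
          (if m ∈ run y H q then (1 : ℝ) else 0) * |AJ J m| = 0 := by
        apply sum_eq_zero
        intro m hm
        rw [mem_filter] at hm
        rw [if_neg hm.2, zero_mul]
      rw [e3, add_zero, e2]
      apply sum_congr rfl
      intro m hm
      rw [if_pos hm, one_mul]
    rw [sum_congr rfl e1, sum_comm]
    have e4 : ∀ q ∈ Ioc Q (2 * Q), ∑ y ∈ W, ∑ m ∈ Icc (1 : ℤ) M, (if m ∈ run y H q then (1 : ℝ) else 0) * |AJ J m| =
        ∑ m ∈ Icc (1 : ℤ) M, wW W H q m * |AJ J m| := by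
      intro q _
      rw [sum_comm]
      apply sum_congr rfl
      intro m _
      unfold wW
      rw [sum_mul]
    rw [sum_congr rfl e4, sum_comm]
    apply sum_congr rfl
    intro m _
    rw [sum_mul]
  -- the inequality of Cauchy and Schwarz
  have h3 : (∑ m ∈ Icc (1 : ℤ) M, (∑ q ∈ Ioc Q (2 * Q), wW W H q m) * |AJ J m|) ^ 2 ≤
      (∑ m ∈ Icc (1 : ℤ) M, (∑ q ∈ Ioc Q (2 * Q), wW W H q m) ^ 2) * ∑ m ∈ Icc (1 : ℤ) M, |AJ J m| ^ 2 :=
    sum_mul_sq_le_sq_mul_sq _ _ _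
  have h4 : ∑ m ∈ Icc (1 : ℤ) M, |AJ J m| ^ 2 ≤ J * (δ * J * M) := by
    refine le_trans ?_ (mul_le_mul_of_nonneg_left hA (Nat.cast_nonneg J))
    rw [mul_sum]
    apply sum_le_sum
    intro m _
    rw [sq]
    exact mul_le_mul_of_nonneg_right (AJ_abs J m) (abs_nonneg _)
  have h5 := secondW (M : ℤ) hQ hQH hHY hs hsQ hsY hW hsep hc
  have h6 : (∑ m ∈ Icc (1 : ℤ) M, (∑ q ∈ Ioc Q (2 * Q), wW W H q m) * |AJ J m|) ^ 2 ≤ (η / 4 * (J * ((s : ℝ) ^ 2 * H))) ^ 2 := by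
    have e0 : 0 ≤ ∑ m ∈ Icc (1 : ℤ) M, |AJ J m| ^ 2 := sum_nonneg fun _ _ => by positivity
    calc _ ≤ _ := h3
      _ ≤ ((2 * ((H : ℝ) / Q)) * (123 * ((s : ℝ) ^ 4 * (H * Q ^ 2 / Y)))) * (J * (δ * J * M)) :=
          mul_le_mul h5 h4 e0 (by positivity)
      _ ≤ ((2 * ((H : ℝ) / Q)) * (123 * ((s : ℝ) ^ 4 * (H * Q ^ 2 / Y)))) * (J * (δ * J * (10 * Y / Q))) := by gcongr
      _ = (η / 4 * (J * ((s : ℝ) ^ 2 * H))) ^ 2 := by
          rw [hδ]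
          field_simp
          ring
  have h7 : ∑ m ∈ Icc (1 : ℤ) M, (∑ q ∈ Ioc Q (2 * Q), wW W H q m) * |AJ J m| ≤ η / 4 * (J * ((s : ℝ) ^ 2 * H)) :=
    le_of_sq_le_sq h6 (by positivity)
  rw [h2] at h1
  refine h1.trans ?_
  have h8 : 2 / (J : ℝ) * ∑ m ∈ Icc (1 : ℤ) M, (∑ q ∈ Ioc Q (2 * Q), wW W H q m) * |AJ J m| ≤ η / 2 * ((s : ℝ) ^ 2 * H) := by
    calc 2 / (J : ℝ) * ∑ m ∈ Icc (1 : ℤ) M, (∑ q ∈ Ioc Q (2 * Q), wW W H q m) * |AJ J m|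
        ≤ 2 / J * (η / 4 * (J * ((s : ℝ) ^ 2 * H))) := by gcongr
      _ = η / 2 * ((s : ℝ) ^ 2 * H) := by
          field_simp
          ring
  have h9 : 4 * (J : ℝ) * ((s : ℝ) ^ 2 * Q) ≤ η / 2 * ((s : ℝ) ^ 2 * H) := by
    have e1 : 8 * (J : ℝ) * Q ≤ η * H := by
      have : 8 * J / η * Q ≤ H := by linarith
      rw [div_mul_eq_mul_div, div_le_iff₀ hη] at this
      linarith
    calc 4 * (J : ℝ) * ((s : ℝ) ^ 2 * Q) = (8 * J * Q) * ((s : ℝ) ^ 2 / 2) := by ring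
      _ ≤ (η * H) * ((s : ℝ) ^ 2 / 2) := by gcongr
      _ = _ := by ring
  linarith

end Pool.Agent.Helper34.OP
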