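import Mathlib

set_option autoImplicit false

/-! Integers with many divisors. -/

namespace Pool.Agent.Helper34.OP
open Finset

lemma d_submul (a b : ℕ) : (a * b).divisors.card ≤ a.divisors.card * b.divisors.card := by
  rcases Nat.eq_zero_or_pos a with ha | ha
  · simp [ha]
  rcases Nat.eq_zero_or_pos b with hb | hb
  · simp [hb]
  rw [Nat.divisors_mul, ← Finset.card_product]
  exact Finset.card_mul_le.trans (le_of_eq (Finset.card_product _ _).symm)

/-- the harmonic sum -/
lemma harm (E : ℕ) : ∑ e ∈ Icc 1 E, 1 / (e : ℝ) ≤ 1 + Real.log E := by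
  have := harmonic_le_one_add_log E
  rw [harmonic_eq_sum_Icc] at this
  push_cast at this
  refine le_trans (le_of_eq ?_) this
  apply sum_congr rfl
  intro e _
  rw [one_div]

/-- the sum of the numbers of divisors -/
lemma sum_d (M : ℕ) : ∑ m ∈ Ioc 0 M, (m.divisors.card : ℝ) ≤ M * (1 + Real.log M) := by
  classical
  have h1 : ∀ m ∈ Ioc 0 M, (m.divisors.card : ℝ) = ∑ e ∈ Icc 1 M, if e ∣ m then (1 : ℝ) else 0 := by
    intro m hm
    rw [mem_Ioc] at hm
    rw [← sum_filter, sum_const, nsmul_eq_mul, mul_one]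
    congr 2
    ext e
    rw [Nat.mem_divisors, mem_filter, mem_Icc]
    constructor
    · rintro ⟨a1, a2⟩
      exact ⟨⟨Nat.pos_of_dvd_of_pos a1 hm.1, (Nat.le_of_dvd hm.1 a1).trans hm.2⟩, a1⟩
    · rintro ⟨_, a2⟩
      exact ⟨a2, by omega⟩
  rw [sum_congr rfl h1, sum_comm]
  have h2 : ∀ e ∈ Icc 1 M, ∑ m ∈ Ioc 0 M, (if e ∣ m then (1 : ℝ) else 0) ≤ M * (1 / e) := by
    intro e _
    rw [← sum_filter, sum_const, nsmul_eq_mul, mul_one, Nat.Ioc_filter_dvd_card_eq_div]
    refine Nat.cast_div_le.trans (le_of_eq ?_)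
    ring
  refine (sum_le_sum h2).trans ?_
  rw [← mul_sum]
  exact mul_le_mul_of_nonneg_left (harm M) (Nat.cast_nonneg _)

/-- few integers have many divisors -/
lemma markov (M : ℕ) (K T : ℝ) (hK : 0 < K) (hT : K * (1 + Real.log M) ≤ T) :
    (((Ioc 0 M).filter (fun m => T < (m.divisors.card : ℝ))).card : ℝ) ≤ M / K := by
  classical
  rcases Nat.eq_zero_or_pos M with hM | hM
  · rw [hM]
    simp
  have hM0 : (0 : ℝ) < M := by exact_mod_cast hM
  have hl : 0 ≤ Real.log M := Real.log_nonneg (by exact_mod_cast hM)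
  obtain ⟨S, hS⟩ : ∃ S, S = (Ioc 0 M).filter (fun m => T < (m.divisors.card : ℝ)) := ⟨_, rfl⟩
  rw [← hS]
  have h1 : (S.card : ℝ) * (K * (1 + Real.log M)) ≤ ∑ m ∈ Ioc 0 M, (m.divisors.card : ℝ) := by
    rw [← nsmul_eq_mul, ← sum_const]
    calc ∑ _m ∈ S, K * (1 + Real.log M) ≤ ∑ m ∈ S, (m.divisors.card : ℝ) := by
          apply sum_le_sum
          intro m hm
          rw [hS, mem_filter] at hm
          linarith [hm.2]
      _ ≤ _ := by
          apply sum_le_sum_of_subset_of_nonneg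
          · rw [hS]; exact filter_subset _ _
          · intro m _ _
            exact Nat.cast_nonneg _
  have h2 := h1.trans (sum_d M)
  have h3 : 0 < 1 + Real.log M := by linarith
  rw [le_div_iff₀ hK]
  have h4 : ((S.card : ℝ) * K) * (1 + Real.log M) ≤ M * (1 + Real.log M) := by
    rw [mul_assoc]
    exact h2
  exact le_of_mul_le_mul_right h4 h3

end Pool.Agent.Helper34.OP
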