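import Mathlib
import Pool.Agent.Helper34.OP.C3
import Pool.Agent.Helper34.OP.C4

set_option autoImplicit false

/-! Windows with few integers of one parity. -/

namespace Pool.Agent.Helper34.OP
open Finset
open Pool.Agent.Helper34.NQ (run mem_run card_run Lz)
open Pool.Agent.Helper34.SW (lr lr_abs)

/-- the number of the integers of `(y, y + H]` whose number of prime factors (with multiplicity) is congruent to `σ` modulo 2 -/
def cntP (y H σ : ℕ) : ℕ := ((Ioc y (y + H)).filter (fun m => ArithmeticFunction.cardFactors m % 2 = σ)).card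

lemma mult_eq (y H : ℕ) {q : ℕ} (hq : 1 ≤ q) :
    (Ioc y (y + H)).filter (fun n => q ∣ n) = (run (y : ℤ) H q).image (fun m => q * m.toNat) := by
  ext n
  rw [mem_filter, mem_Ioc, mem_image]
  constructor
  · rintro ⟨⟨h1, h2⟩, k, hk⟩
    refine ⟨(k : ℤ), ?_, by rw [Int.toNat_natCast, hk]⟩
    rw [mem_run hq]
    constructor
    · exact_mod_cast (hk ▸ h1)
    · exact_mod_cast (hk ▸ h2)
  · rintro ⟨m, hm, rfl⟩
    rw [mem_run hq] at hm
    have hq0 : (0 : ℤ) < q := by exact_mod_cast hq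
    have hm1 : 0 ≤ m := by
      by_contra hcon
      push Not at hcon
      have : (q : ℤ) * m < 0 := mul_neg_of_pos_of_neg hq0 hcon
      omega
    have e : ((q * m.toNat : ℕ) : ℤ) = q * m := by
      push_cast
      rw [Int.toNat_of_nonneg hm1]
    refine ⟨⟨?_, ?_⟩, dvd_mul_right _ _⟩
    · have : (y : ℤ) < ((q * m.toNat : ℕ) : ℤ) := by rw [e]; exact hm.1
      exact_mod_cast this
    · have : ((q * m.toNat : ℕ) : ℤ) ≤ (y : ℤ) + H := by rw [e]; exact hm.2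
      exact_mod_cast this

lemma run_pos {y H q : ℕ} (hq : 1 ≤ q) {m : ℤ} (hm : m ∈ run (y : ℤ) H q) : 1 ≤ m := by
  rw [mem_run hq] at hm
  have hq0 : (0 : ℤ) < q := by exact_mod_cast hq
  by_contra hcon
  have h1 : m ≤ 0 := by omega
  have : (q : ℤ) * m ≤ 0 := mul_nonpos_of_nonneg_of_nonpos hq0.le h1
  have : (0 : ℤ) ≤ y := by positivity
  linarith [hm.1]

lemma inj_run {y H q : ℕ} (hq : 1 ≤ q) : Set.InjOn (fun m : ℤ => q * m.toNat) (run (y : ℤ) H q : Finset ℤ) := by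
  intro a ha b hb hab
  rw [mem_coe] at ha hb
  have h1 := run_pos hq ha
  have h2 := run_pos hq hb
  have h3 := Nat.eq_of_mul_eq_mul_left (by omega) hab
  omega

lemma mult_card (y H : ℕ) {q : ℕ} (hq : 1 ≤ q) :
    ((Ioc y (y + H)).filter (fun n => q ∣ n)).card = (run (y : ℤ) H q).card := by
  rw [mult_eq y H hq, card_image_of_injOn (inj_run hq)]

lemma mult_sum (y H : ℕ) {q : ℕ} (hq : 1 ≤ q) :
    ∑ n ∈ (Ioc y (y + H)).filter (fun n => q ∣ n), lr n = lr q * ∑ m ∈ run (y : ℤ) H q, Lz m := by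
  rw [mult_eq y H hq, sum_image (inj_run hq), mul_sum]
  apply sum_congr rfl
  intro m hm
  have h1 := run_pos hq hm
  unfold Lz lr
  rw [if_pos h1, ArithmeticFunction.cardFactors_mul (by omega) (by omega), pow_add]

/-- the multiples of `q` of one parity -/
lemma mult_par (y H : ℕ) {q σ : ℕ} (hq : 1 ≤ q) (hσ : σ < 2) :
    ((H : ℝ) / q - 1 - |∑ m ∈ run (y : ℤ) H q, Lz m|) / 2 ≤
      ((((Ioc y (y + H)).filter (fun m => ArithmeticFunction.cardFactors m % 2 = σ)).filter (fun n => q ∣ n)).card : ℝ) := by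
  classical
  obtain ⟨S, hS⟩ : ∃ S, S = (Ioc y (y + H)).filter (fun n => q ∣ n) := ⟨_, rfl⟩
  have h1 : ((((Ioc y (y + H)).filter (fun m => ArithmeticFunction.cardFactors m % 2 = σ)).filter (fun n => q ∣ n)).card : ℝ) =
      ∑ n ∈ S, (1 + (-1) ^ σ * lr n) / 2 := by
    have e1 : ((Ioc y (y + H)).filter (fun m => ArithmeticFunction.cardFactors m % 2 = σ)).filter (fun n => q ∣ n) =
        S.filter (fun m => ArithmeticFunction.cardFactors m % 2 = σ) := by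
      rw [hS, filter_filter, filter_filter]
      apply filter_congr
      intro n _
      tauto
    rw [e1, card_filter]
    push_cast
    apply sum_congr rfl
    intro n _
    unfold lr
    have h2 : σ = 0 ∨ σ = 1 := by omega
    rcases Nat.mod_two_eq_zero_or_one (ArithmeticFunction.cardFactors n) with h3 | h3 <;> rcases h2 with h2 | h2
    · rw [if_pos (by omega), h2, (Nat.even_iff.2 h3).neg_one_pow]; norm_num
    · rw [if_neg (by omega), h2, (Nat.even_iff.2 h3).neg_one_pow]; norm_num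
    · rw [if_neg (by omega), h2, (Nat.odd_iff.2 h3).neg_one_pow]; norm_num
    · rw [if_pos (by omega), h2, (Nat.odd_iff.2 h3).neg_one_pow]; norm_num
  rw [h1, ← sum_div, sum_add_distrib, ← mul_sum, sum_const, nsmul_eq_mul, mul_one, hS, mult_card y H hq, mult_sum y H hq]
  have h2 : |(-1 : ℝ) ^ σ * (lr q * ∑ m ∈ run (y : ℤ) H q, Lz m)| = |∑ m ∈ run (y : ℤ) H q, Lz m| := by
    rw [abs_mul, abs_mul, lr_abs, abs_pow, abs_neg, abs_one, one_pow, one_mul, one_mul]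
  have h3 := neg_abs_le ((-1 : ℝ) ^ σ * (lr q * ∑ m ∈ run (y : ℤ) H q, Lz m))
  rw [h2] at h3
  have h4 := (abs_le.1 (card_run (y : ℤ) (H := H) hq)).1
  linarith

/-- the points of the runs in a given set -/
lemma heavyW {W : Finset ℤ} {H Q Y s : ℕ} (M : ℤ) (hQ : 1 ≤ Q) (hQH : Q ≤ H) (hHY : 2 * H ^ 2 ≤ Y) (hs : 1 ≤ s) (hsQ : s ≤ Q)
    (hsY : Y ≤ s * H * Q) (hW : ∀ y ∈ W, (Y : ℤ) ≤ y ∧ y ≤ 9 * Y)
    (hsep : ∀ x ∈ W, ∀ y ∈ W, x ≠ y → (H : ℤ) ≤ |x - y|) (hc : W.card = s ^ 2) (Z : Finset ℤ) (hZ : Z ⊆ Icc 1 M) :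
    (∑ y ∈ W, ∑ q ∈ Ioc Q (2 * Q), (((run y H q).filter (fun m => m ∈ Z)).card : ℝ)) ^ 2 ≤
      (2 * ((H : ℝ) / Q)) * (123 * ((s : ℝ) ^ 4 * (H * Q ^ 2 / Y))) * Z.card := by
  classical
  have h1 : ∑ y ∈ W, ∑ q ∈ Ioc Q (2 * Q), (((run y H q).filter (fun m => m ∈ Z)).card : ℝ) =
      ∑ m ∈ Z, (∑ q ∈ Ioc Q (2 * Q), wW W H q m) * 1 := by
    have e1 : ∀ y ∈ W, ∑ q ∈ Ioc Q (2 * Q), (((run y H q).filter (fun m => m ∈ Z)).card : ℝ) =
        ∑ q ∈ Ioc Q (2 * Q), ∑ m ∈ Z, (if m ∈ run y H q then (1 : ℝ) else 0) := by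
      intro y _
      apply sum_congr rfl
      intro q _
      rw [← sum_filter, sum_const, nsmul_eq_mul, mul_one]
      congr 2
      ext m
      rw [mem_filter, mem_filter, and_comm]
    rw [sum_congr rfl e1, sum_comm]
    have e4 : ∀ q ∈ Ioc Q (2 * Q), ∑ y ∈ W, ∑ m ∈ Z, (if m ∈ run y H q then (1 : ℝ) else 0) =
        ∑ m ∈ Z, wW W H q m := by
      intro q _
      rw [sum_comm]
      rfl
    rw [sum_congr rfl e4, sum_comm]
    apply sum_congr rfl
    intro m _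
    rw [mul_one]
  rw [h1]
  refine (sum_mul_sq_le_sq_mul_sq _ _ _).trans ?_
  have h2 : ∑ m ∈ Z, (1 : ℝ) ^ 2 = Z.card := by simp
  rw [h2]
  apply mul_le_mul_of_nonneg_right _ (Nat.cast_nonneg _)
  refine le_trans ?_ (secondW M hQ hQH hHY hs hsQ hsY hW hsep hc)
  exact sum_le_sum_of_subset_of_nonneg hZ (fun m _ _ => by positivity)

/-- a good window -/
theorem good_window {y H Q : ℕ} (hQ : 1 ≤ Q) (hQH : 8 * Q ≤ H) (Z : Finset ℤ) (D : Finset ℕ) (T : ℝ)
    (hZ : ∀ q ∈ Ioc Q (2 * Q), ∀ m ∈ run (y : ℤ) H q, m ∉ Z → (m.toNat.divisors.card : ℝ) ≤ T)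
    (hD : ∀ q ∈ Ioc Q (2 * Q), q ∉ D → (q.divisors.card : ℝ) ≤ T)
    (hg : ∑ q ∈ Ioc Q (2 * Q), |∑ m ∈ run (y : ℤ) H q, Lz m| ≤ H / 16)
    (hg2 : ∑ q ∈ Ioc Q (2 * Q), (((run (y : ℤ) H q).filter (fun m => m ∈ Z)).card : ℝ) ≤ H / 64)
    (hg3 : (D.card : ℝ) ≤ Q / 64) {σ : ℕ} (hσ : σ < 2) :
    (H : ℝ) / 8 ≤ cntP y H σ * T ^ 2 := by
  classical
  obtain ⟨S, hS⟩ : ∃ S, S = (Ioc y (y + H)).filter (fun m => ArithmeticFunction.cardFactors m % 2 = σ) := ⟨_, rfl⟩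
  have hQ0 : (0 : ℝ) < Q := by exact_mod_cast hQ
  have hQH' : 8 * (Q : ℝ) ≤ H := by exact_mod_cast hQH
  obtain ⟨A, hA⟩ : ∃ A, A = (Ioc Q (2 * Q)).filter (fun q => q ∉ D) := ⟨_, rfl⟩
  have hAc : (Q : ℝ) - Q / 64 ≤ A.card := by
    have h1 := card_filter_add_card_filter_not (s := Ioc Q (2 * Q)) (fun q => q ∉ D)
    have h2 : ((Ioc Q (2 * Q)).filter (fun q => ¬ q ∉ D)).card ≤ D.card := by
      apply card_le_card
      intro q hq
      rw [mem_filter] at hq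
      exact not_not.1 hq.2
    rw [← hA, Nat.card_Ioc] at h1
    have h3 : (A.card : ℝ) + (((Ioc Q (2 * Q)).filter (fun q => ¬ q ∉ D)).card : ℝ) = Q := by
      have : A.card + ((Ioc Q (2 * Q)).filter (fun q => ¬ q ∉ D)).card = Q := by omega
      exact_mod_cast this
    have h4 : (((Ioc Q (2 * Q)).filter (fun q => ¬ q ∉ D)).card : ℝ) ≤ D.card := by exact_mod_cast h2
    linarith
  have hAs : A ⊆ Ioc Q (2 * Q) := by rw [hA]; exact filter_subset _ _
  -- the pairs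
  have h1 : (H : ℝ) / 8 ≤ ∑ q ∈ A, ((S.filter (fun n => q ∣ n ∧ ((n / q : ℕ) : ℤ) ∉ Z)).card : ℝ) := by
    have e1 : ∀ q ∈ A, ((H : ℝ) / (2 * Q) - 1) / 2 - |∑ m ∈ run (y : ℤ) H q, Lz m| / 2 -
        (((run (y : ℤ) H q).filter (fun m => m ∈ Z)).card : ℝ) ≤ ((S.filter (fun n => q ∣ n ∧ ((n / q : ℕ) : ℤ) ∉ Z)).card : ℝ) := by
      intro q hq
      have hq' := hAs hq
      rw [mem_Ioc] at hq'
      have a1 := mult_par y H (q := q) (by omega) hσ
      rw [← hS] at a1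
      have e2 : (H : ℝ) / (2 * Q) ≤ H / q := by
        apply div_le_div_of_nonneg_left (Nat.cast_nonneg _) (by exact_mod_cast (by omega : 0 < q))
        exact_mod_cast hq'.2
      have e3 : (S.filter (fun n => q ∣ n)).card ≤ (S.filter (fun n => q ∣ n ∧ ((n / q : ℕ) : ℤ) ∉ Z)).card +
          ((run (y : ℤ) H q).filter (fun m => m ∈ Z)).card := by
        have f1 : S.filter (fun n => q ∣ n) = (S.filter (fun n => q ∣ n ∧ ((n / q : ℕ) : ℤ) ∉ Z)) ∪
            (S.filter (fun n => q ∣ n ∧ ((n / q : ℕ) : ℤ) ∈ Z)) := by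
          ext n
          rw [mem_union, mem_filter, mem_filter, mem_filter]
          tauto
        have f2 : (S.filter (fun n => q ∣ n ∧ ((n / q : ℕ) : ℤ) ∈ Z)).card ≤ ((run (y : ℤ) H q).filter (fun m => m ∈ Z)).card := by
          apply card_le_card_of_injOn (fun n => ((n / q : ℕ) : ℤ))
          · intro n hn
            rw [mem_coe, mem_filter, hS, mem_filter, mem_Ioc] at hn
            obtain ⟨⟨⟨n1, n2⟩, n3⟩, ⟨k, hk⟩, n4⟩ := hn
            refine mem_coe.2 (mem_filter.2 ⟨?_, n4⟩)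
            have hk2 : n / q = k := by rw [hk, Nat.mul_div_cancel_left _ (by omega)]
            show ((n / q : ℕ) : ℤ) ∈ run (y : ℤ) H q
            rw [hk2, mem_run (by omega)]
            constructor
            · exact_mod_cast (hk ▸ n1)
            · exact_mod_cast (hk ▸ n2)
          · intro n hn n' hn' heq
            rw [mem_coe, mem_filter] at hn hn'
            obtain ⟨_, ⟨k, hk⟩, _⟩ := hn
            obtain ⟨_, ⟨k', hk'⟩, _⟩ := hn'
            simp only [Nat.cast_inj] at heq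
            rw [hk, hk', Nat.mul_div_cancel_left _ (by omega), Nat.mul_div_cancel_left _ (by omega)] at heq
            rw [hk, hk', heq]
        rw [f1]
        exact (card_union_le _ _).trans (by omega)
      have e4 : ((S.filter (fun n => q ∣ n)).card : ℝ) ≤ ((S.filter (fun n => q ∣ n ∧ ((n / q : ℕ) : ℤ) ∉ Z)).card : ℝ) +
          (((run (y : ℤ) H q).filter (fun m => m ∈ Z)).card : ℝ) := by exact_mod_cast e3
      linarith
    refine le_trans ?_ (sum_le_sum e1)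
    rw [sum_sub_distrib, sum_sub_distrib, ← sum_div, sum_const, nsmul_eq_mul, ← sum_div]
    have e5 : ∑ q ∈ A, |∑ m ∈ run (y : ℤ) H q, Lz m| ≤ H / 16 :=
      (sum_le_sum_of_subset_of_nonneg hAs (fun q _ _ => abs_nonneg _)).trans hg
    have e6 : ∑ q ∈ A, (((run (y : ℤ) H q).filter (fun m => m ∈ Z)).card : ℝ) ≤ H / 64 :=
      (sum_le_sum_of_subset_of_nonneg hAs (fun q _ _ => Nat.cast_nonneg _)).trans hg2
    have e7 : 0 ≤ (H : ℝ) / (2 * Q) - 1 := by
      rw [sub_nonneg, le_div_iff₀ (by positivity)]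
      linarith
    have e8 : ((Q : ℝ) - Q / 64) * ((H : ℝ) / (2 * Q) - 1) ≤ A.card * ((H : ℝ) / (2 * Q) - 1) :=
      mul_le_mul_of_nonneg_right hAc e7
    have e9 : ((Q : ℝ) - Q / 64) * ((H : ℝ) / (2 * Q) - 1) = 63 / 64 * (H / 2 - Q) := by
      field_simp
      ring
    rw [e9] at e8
    have e10 : (A.card : ℝ) * ((H : ℝ) / (2 * Q) - 1) / 2 = (A.card : ℝ) * (((H : ℝ) / (2 * Q) - 1)) / 2 := rfl
    linarith
  have h2 : ∑ q ∈ A, ((S.filter (fun n => q ∣ n ∧ ((n / q : ℕ) : ℤ) ∉ Z)).card : ℝ) =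
      ∑ n ∈ S, ((A.filter (fun q => q ∣ n ∧ ((n / q : ℕ) : ℤ) ∉ Z)).card : ℝ) := by
    have : ∑ q ∈ A, (S.filter (fun n => q ∣ n ∧ ((n / q : ℕ) : ℤ) ∉ Z)).card =
        ∑ n ∈ S, (A.filter (fun q => q ∣ n ∧ ((n / q : ℕ) : ℤ) ∉ Z)).card := by
      simp only [card_filter]
      rw [sum_comm]
    exact_mod_cast this
  have h3 : ∀ n ∈ S, ((A.filter (fun q => q ∣ n ∧ ((n / q : ℕ) : ℤ) ∉ Z)).card : ℝ) ≤ T ^ 2 := by
    intro n hn
    rw [hS, mem_filter, mem_Ioc] at hn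
    rcases (A.filter (fun q => q ∣ n ∧ ((n / q : ℕ) : ℤ) ∉ Z)).eq_empty_or_nonempty with he | ⟨q, hq⟩
    · rw [he, card_empty, Nat.cast_zero]
      positivity
    · have c1 : (A.filter (fun q => q ∣ n ∧ ((n / q : ℕ) : ℤ) ∉ Z)).card ≤ n.divisors.card := by
        apply card_le_card
        intro r hr
        rw [mem_filter] at hr
        rw [Nat.mem_divisors]
        exact ⟨hr.2.1, by omega⟩
      rw [mem_filter] at hq
      obtain ⟨hq1, ⟨k, hk⟩, hq3⟩ := hq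
      have hq4 := hAs hq1
      have hq5 := hq4
      rw [mem_Ioc] at hq5
      have hk2 : n / q = k := by rw [hk, Nat.mul_div_cancel_left _ (by omega)]
      rw [hk2] at hq3
      have c2 : (k.divisors.card : ℝ) ≤ T := by
        have := hZ q hq4 (k : ℤ) (by
          rw [mem_run (by omega)]
          constructor
          · exact_mod_cast (hk ▸ hn.1.1)
          · exact_mod_cast (hk ▸ hn.1.2)) hq3
        rwa [Int.toNat_natCast] at this
      have c3 : (q.divisors.card : ℝ) ≤ T := by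
        apply hD q hq4
        rw [hA, mem_filter] at hq1
        exact hq1.2
      have c4 : n.divisors.card ≤ q.divisors.card * k.divisors.card := by
        rw [hk]; exact d_submul q k
      calc ((A.filter (fun q => q ∣ n ∧ ((n / q : ℕ) : ℤ) ∉ Z)).card : ℝ) ≤ n.divisors.card := by exact_mod_cast c1
        _ ≤ q.divisors.card * k.divisors.card := by exact_mod_cast c4
        _ ≤ T * T := mul_le_mul c3 c2 (Nat.cast_nonneg _) ((Nat.cast_nonneg _).trans c3)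
        _ = T ^ 2 := by ring
  have h4 : cntP y H σ = S.card := by rw [hS]; rfl
  rw [h4]
  refine h1.trans ?_
  rw [h2]
  refine (sum_le_sum h3).trans (le_of_eq ?_)
  rw [sum_const, nsmul_eq_mul]

/-- few windows with few integers of one parity -/
theorem few : ∃ C K : ℝ, 1 ≤ C ∧ 1 ≤ K ∧ ∃ Y₀ : ℕ, ∀ Y : ℕ, Y₀ ≤ Y → ∀ H Q s : ℕ, 1 ≤ s → s ≤ Q → C * Q ≤ H → 2 * H ^ 2 ≤ Y →
    Y ≤ s * H * Q → ∀ B : Finset ℕ, (∀ y ∈ B, Y ≤ y ∧ y ≤ 9 * Y) →
      (∀ x ∈ B, ∀ y ∈ B, x ≠ y → (H : ℤ) ≤ |(x : ℤ) - y|) →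
      (∀ y ∈ B, ∃ σ < 2, cntP y H σ * (K * (1 + Real.log (10 * Y))) ^ 2 < (H : ℝ) / 8) → B.card < s ^ 2 := by
  classical
  obtain ⟨C, hC, Y₀, h⟩ := blockW (1 / 128) (by norm_num)
  refine ⟨C + 8, 2460 * 2 ^ 14, by linarith, by norm_num, Y₀, ?_⟩
  intro Y hY H Q s hs hsQ hCQ hHY hsY B hB hsep hbad
  by_contra hcon
  push Not at hcon
  obtain ⟨B', hB', hc⟩ := exists_subset_card_eq hcon
  have hQ : 1 ≤ Q := by omega
  have hQ0 : (1 : ℝ) ≤ Q := by exact_mod_cast hQ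
  have hCQ1 : C * Q ≤ H := by nlinarith
  have hCQ2 : 8 * (Q : ℝ) ≤ H := by nlinarith
  have hQH : 8 * Q ≤ H := by exact_mod_cast hCQ2
  have hH0 : (0 : ℝ) < H := by linarith
  have hHpos : 1 ≤ H := by omega
  have hs0 : (1 : ℝ) ≤ s := by exact_mod_cast hs
  have hYn : 1 ≤ Y := by
    have : 0 < H ^ 2 := by positivity
    omega
  have hY0 : (1 : ℝ) ≤ Y := by exact_mod_cast hYn
  have hHYle : H ≤ Y := by nlinarith
  obtain ⟨W, hW⟩ : ∃ W, W = B'.image (fun n : ℕ => (n : ℤ)) := ⟨_, rfl⟩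
  have hW1 : ∀ y ∈ W, (Y : ℤ) ≤ y ∧ y ≤ 9 * Y := by
    intro y hy
    rw [hW, mem_image] at hy
    obtain ⟨n, hn, rfl⟩ := hy
    obtain ⟨a1, a2⟩ := hB n (hB' hn)
    exact ⟨by exact_mod_cast a1, by exact_mod_cast a2⟩
  have hW2 : ∀ x ∈ W, ∀ y ∈ W, x ≠ y → (H : ℤ) ≤ |x - y| := by
    intro x hx y hy hne
    rw [hW, mem_image] at hx hy
    obtain ⟨n, hn, rfl⟩ := hx
    obtain ⟨k, hk, rfl⟩ := hy
    exact hsep n (hB' hn) k (hB' hk) (by intro e; exact hne (by rw [e]))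
  have hW3 : W.card = s ^ 2 := by
    rw [hW, card_image_of_injective _ Nat.cast_injective]; exact hc
  have key := h Y hY H Q s hs hsQ hCQ1 hHY hsY W hW1 hW2 hW3
  obtain ⟨M, hM⟩ : ∃ M : ℕ, M = (9 * Y + H) / Q := ⟨_, rfl⟩
  have hM10 : M ≤ 10 * Y := by
    rw [hM]
    refine (Nat.div_le_self _ _).trans (by omega)
  have hMle : (M : ℝ) ≤ 10 * Y / Q := by
    rw [hM]
    refine Nat.cast_div_le.trans ?_
    push_cast
    have : (H : ℝ) ≤ Y := by exact_mod_cast hHYle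
    gcongr
    linarith
  obtain ⟨T, hT⟩ : ∃ T : ℝ, T = (2460 * 2 ^ 14) * (1 + Real.log (10 * Y)) := ⟨_, rfl⟩
  -- the integers with many divisors
  obtain ⟨Z0, hZ0⟩ : ∃ Z0, Z0 = (Ioc 0 M).filter (fun m => T < (m.divisors.card : ℝ)) := ⟨_, rfl⟩
  obtain ⟨Z, hZ⟩ : ∃ Z, Z = Z0.image (fun n : ℕ => (n : ℤ)) := ⟨_, rfl⟩
  obtain ⟨D, hD⟩ : ∃ D, D = (Ioc Q (2 * Q)).filter (fun q => T < (q.divisors.card : ℝ)) := ⟨_, rfl⟩
  have hlog : ∀ k : ℕ, k ≤ 10 * Y → (2460 * 2 ^ 14 : ℝ) * (1 + Real.log k) ≤ T := by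
    intro k hk
    rw [hT]
    apply mul_le_mul_of_nonneg_left _ (by norm_num)
    rcases Nat.eq_zero_or_pos k with h0 | h0
    · rw [h0, Nat.cast_zero, Real.log_zero]
      have := Real.log_nonneg (by linarith : (1 : ℝ) ≤ 10 * Y)
      linarith
    · have := Real.log_le_log (by exact_mod_cast h0) (show (k : ℝ) ≤ 10 * Y by exact_mod_cast hk)
      linarith
  have hZc : (Z.card : ℝ) ≤ M / (2460 * 2 ^ 14) := by
    rw [hZ, card_image_of_injective _ Nat.cast_injective, hZ0]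
    exact markov M _ T (by norm_num) (hlog M hM10)
  have hDc : (D.card : ℝ) ≤ Q / 64 := by
    have h1 : D ⊆ (Ioc 0 (2 * Q)).filter (fun q => T < (q.divisors.card : ℝ)) := by
      intro q hq
      rw [hD, mem_filter, mem_Ioc] at hq
      rw [mem_filter, mem_Ioc]
      exact ⟨⟨by omega, hq.1.2⟩, hq.2⟩
    have h2 : (D.card : ℝ) ≤ (((Ioc 0 (2 * Q)).filter (fun q => T < (q.divisors.card : ℝ))).card : ℝ) := by
      exact_mod_cast card_le_card h1
    have h3 := markov (2 * Q) (2460 * 2 ^ 14) T (by norm_num) (hlog (2 * Q) (by omega))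
    refine h2.trans (h3.trans ?_)
    push_cast
    rw [div_le_div_iff₀ (by norm_num) (by norm_num)]
    nlinarith
  have hZs : Z ⊆ Icc (1 : ℤ) M := by
    intro m hm
    rw [hZ, mem_image] at hm
    obtain ⟨n, hn, rfl⟩ := hm
    rw [hZ0, mem_filter, mem_Ioc] at hn
    rw [mem_Icc]
    omega
  have key2 := heavyW (M : ℤ) hQ (by omega : Q ≤ H) hHY hs hsQ hsY hW1 hW2 hW3 Z hZs
  have key3 : ∑ y ∈ W, ∑ q ∈ Ioc Q (2 * Q), (((run y H q).filter (fun m => m ∈ Z)).card : ℝ) ≤ 1 / 128 * ((s : ℝ) ^ 2 * H) := by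
    have e1 : (∑ y ∈ W, ∑ q ∈ Ioc Q (2 * Q), (((run y H q).filter (fun m => m ∈ Z)).card : ℝ)) ^ 2 ≤ (1 / 128 * ((s : ℝ) ^ 2 * H)) ^ 2 := by
      refine key2.trans ?_
      calc (2 * ((H : ℝ) / Q)) * (123 * ((s : ℝ) ^ 4 * (H * Q ^ 2 / Y))) * Z.card
          ≤ (2 * ((H : ℝ) / Q)) * (123 * ((s : ℝ) ^ 4 * (H * Q ^ 2 / Y))) * (10 * Y / Q / (2460 * 2 ^ 14)) := by
            apply mul_le_mul_of_nonneg_left _ (by positivity)
            refine hZc.trans ?_
            gcongr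
        _ = (1 / 128 * ((s : ℝ) ^ 2 * H)) ^ 2 := by
            field_simp
            norm_num
    exact le_of_sq_le_sq e1 (by positivity)
  -- the sum over the windows
  have h1 : ∀ y ∈ B', (H : ℝ) / 64 < ∑ q ∈ Ioc Q (2 * Q), |∑ m ∈ run (y : ℤ) H q, Lz m| +
      ∑ q ∈ Ioc Q (2 * Q), (((run (y : ℤ) H q).filter (fun m => m ∈ Z)).card : ℝ) := by
    intro y hy
    by_contra hcon2
    push Not at hcon2
    obtain ⟨σ, hσ, hb⟩ := hbad y (hB' hy)
    have hyb := hB y (hB' hy)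
    have n1 : 0 ≤ ∑ q ∈ Ioc Q (2 * Q), |∑ m ∈ run (y : ℤ) H q, Lz m| := sum_nonneg fun _ _ => abs_nonneg _
    have n2 : 0 ≤ ∑ q ∈ Ioc Q (2 * Q), (((run (y : ℤ) H q).filter (fun m => m ∈ Z)).card : ℝ) := sum_nonneg fun _ _ => Nat.cast_nonneg _
    have := good_window (y := y) hQ hQH Z D T ?_ ?_ (by linarith) (by linarith) hDc hσ
    · rw [hT] at this
      linarith
    · intro q hq m hm hmZ
      have hq' := mem_Ioc.1 hq
      have hm1 := run_pos (by omega : 1 ≤ q) hm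
      rw [mem_run (by omega)] at hm
      by_contra hcon3
      push Not at hcon3
      apply hmZ
      rw [hZ, mem_image]
      refine ⟨m.toNat, ?_, Int.toNat_of_nonneg (by linarith)⟩
      rw [hZ0, mem_filter, mem_Ioc]
      refine ⟨⟨by omega, ?_⟩, hcon3⟩
      rw [hM, Nat.le_div_iff_mul_le hQ]
      have e1 : m * Q ≤ q * m := by
        have : (Q : ℤ) ≤ q := by exact_mod_cast hq'.1.le
        nlinarith
      have e2 : (y : ℤ) ≤ 9 * Y := by exact_mod_cast hyb.2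
      have e3 : ((m.toNat * Q : ℕ) : ℤ) ≤ ((9 * Y + H : ℕ) : ℤ) := by
        push_cast
        rw [Int.toNat_of_nonneg (by linarith)]
        linarith [hm.2]
      exact_mod_cast e3
    · intro q hq hqD
      by_contra hcon3
      push Not at hcon3
      apply hqD
      rw [hD, mem_filter]
      exact ⟨hq, hcon3⟩
  have hB'ne : B'.Nonempty := by
    rw [← card_pos, hc]
    positivity
  have h2 := sum_lt_sum_of_nonempty hB'ne h1
  rw [sum_const, nsmul_eq_mul, hc, sum_add_distrib] at h2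
  rw [hW, sum_image (fun a _ b _ hab => by exact_mod_cast hab)] at key key3
  push_cast at h2
  have h4 : 0 < (s : ℝ) ^ 2 * H := by positivity
  linarith

end Pool.Agent.Helper34.OP
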