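import Mathlib
import Pool.Agent.Helper34.OP.C5

set_option autoImplicit false

/-! Both parities in all short subintervals of the Oppermann intervals. -/

namespace Pool.Agent.Helper34.OP
open Finset

lemma cntP_add (u a b σ : ℕ) : cntP u (a + b) σ = cntP u a σ + cntP (u + a) b σ := by
  unfold cntP
  rw [← card_union_of_disjoint, ← filter_union]
  · congr 2
    ext x
    rw [mem_union, mem_Ioc, mem_Ioc, mem_Ioc]
    omega
  · apply disjoint_filter_filter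
    rw [disjoint_left]
    intro x hx hx'
    rw [mem_Ioc] at hx hx'
    omega

lemma cntP_split (u k σ t : ℕ) : cntP u (t * k) σ = ∑ i ∈ range t, cntP (u + i * k) k σ := by
  induction t with
  | zero => simp [cntP]
  | succ t ih => rw [sum_range_succ, Nat.add_mul, one_mul, cntP_add, ih]

/-- a short window in a long window -/
lemma sub_window {u h k σ : ℕ} {δ : ℝ} (hk : 1 ≤ k) (hkh : k ≤ h) (hδ : 0 ≤ δ) (hb : (cntP u h σ : ℝ) < δ * h) :
    ∃ u', u ≤ u' ∧ u' + k ≤ u + h ∧ (cntP u' k σ : ℝ) < 2 * δ * k := by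
  obtain ⟨t, ht⟩ : ∃ t, t = h / k := ⟨_, rfl⟩
  have ht1 : 1 ≤ t := by rw [ht]; exact Nat.div_pos hkh (by omega)
  have ht2 : t * k ≤ h := by rw [ht]; exact Nat.div_mul_le_self h k
  have ht3 : h < (t + 1) * k := by
    rw [ht, mul_comm]
    exact Nat.lt_mul_div_succ h (by omega)
  have ht4 : (h : ℝ) ≤ 2 * (t * k) := by
    have : h ≤ 2 * (t * k) := by nlinarith
    exact_mod_cast this
  by_contra hcon
  push Not at hcon
  have h1 : ∀ i ∈ range t, 2 * δ * k ≤ (cntP (u + i * k) k σ : ℝ) := by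
    intro i hi
    rw [mem_range] at hi
    apply hcon (u + i * k) (by omega)
    have : (i + 1) * k ≤ t * k := Nat.mul_le_mul_right _ hi
    have e : (i + 1) * k = i * k + k := by ring
    omega
  have h2 := sum_le_sum h1
  rw [sum_const, card_range, nsmul_eq_mul] at h2
  have h3 : ∑ i ∈ range t, (cntP (u + i * k) k σ : ℝ) = cntP u (t * k) σ := by
    rw [cntP_split]
    push_cast
    rfl
  rw [h3] at h2
  have h4 : cntP u (t * k) σ ≤ cntP u h σ := by
    obtain ⟨r, hr⟩ := Nat.exists_eq_add_of_le ht2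
    rw [hr, cntP_add]
    omega
  have h5 : (cntP u (t * k) σ : ℝ) ≤ cntP u h σ := by exact_mod_cast h4
  have h6 : δ * h ≤ δ * (2 * (t * k)) := mul_le_mul_of_nonneg_left ht4 hδ
  have h7 : (t : ℝ) * (2 * δ * k) = δ * (2 * (t * k)) := by ring
  linarith

lemma cntP_mono (u σ : ℕ) {k h : ℕ} (hk : k ≤ h) : cntP u k σ ≤ cntP u h σ := by
  obtain ⟨r, hr⟩ := Nat.exists_eq_add_of_le hk
  rw [hr, cntP_add]
  omega

/-- the number of the windows of length `H` with few integers of one parity -/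
theorem general : ∃ C c : ℝ, 1 ≤ C ∧ 0 < c ∧ ∀ Y H : ℕ, 2 ≤ Y → 1 ≤ H → H ^ 2 ≤ Y → ∀ B : Finset ℕ,
    (∀ y ∈ B, Y ≤ y ∧ y ≤ 9 * Y) → (∀ x ∈ B, ∀ y ∈ B, x ≠ y → (H : ℤ) ≤ |(x : ℤ) - y|) →
      (∀ y ∈ B, ∃ σ < 2, (cntP y H σ : ℝ) < c / (Real.log Y) ^ 2 * H) → (B.card : ℝ) ≤ C * ((Y : ℝ) / H ^ 2) ^ 2 := by
  classical
  obtain ⟨C₁, K, hC₁, hK, Y₀, hfew⟩ := few
  obtain ⟨C, hC⟩ : ∃ C : ℝ, C = 9 * (Y₀ + 10) + 1944 * C₁ ^ 2 + 243 * C₁ ^ 3 := ⟨_, rfl⟩
  have hY₀ : (0 : ℝ) ≤ Y₀ := Nat.cast_nonneg _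
  have hC₁2 : 0 ≤ C₁ ^ 2 := by positivity
  have hC₁3 : 0 ≤ C₁ ^ 3 := by positivity
  refine ⟨C, 1 / (24 * 16 * K ^ 2), by linarith, by positivity, ?_⟩
  intro Y H hY hH hHY B hB hsep hbad
  have hY0 : (2 : ℝ) ≤ Y := by exact_mod_cast hY
  have hH0 : (1 : ℝ) ≤ H := by exact_mod_cast hH
  have hHY' : (H : ℝ) ^ 2 ≤ Y := by exact_mod_cast hHY
  have hr1 : 1 ≤ (Y : ℝ) / H ^ 2 := by
    rw [le_div_iff₀ (by positivity), one_mul]
    exact hHY'
  have hr2 : 1 ≤ ((Y : ℝ) / H ^ 2) ^ 2 := one_le_pow₀ hr1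
  obtain ⟨δ, hδ⟩ : ∃ δ : ℝ, δ = 1 / (24 * 16 * K ^ 2) / (Real.log Y) ^ 2 := ⟨_, rfl⟩
  rw [← hδ] at hbad
  have hδ0 : 0 ≤ δ := by rw [hδ]; positivity
  -- the trivial bound
  have hBc : (B.card : ℝ) ≤ 9 * Y / H := by
    have h1 : (B.image (fun n : ℕ => (n : ℤ))).card ≤ 8 * Y / H + 1 := by
      apply sep_card hH _ (Y : ℤ) (8 * Y / H + 1)
      · intro x hx
        rw [mem_image] at hx
        obtain ⟨n, hn, rfl⟩ := hx
        obtain ⟨a1, a2⟩ := hB n hn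
        refine ⟨by exact_mod_cast a1, ?_⟩
        have h2 : 8 * Y < H * (8 * Y / H + 1) := Nat.lt_mul_div_succ (8 * Y) (by omega)
        have h3 : n < Y + (8 * Y / H + 1) * H := by
          rw [mul_comm (8 * Y / H + 1) H]
          omega
        exact_mod_cast h3
      · intro x hx y hy hne
        rw [mem_image] at hx hy
        obtain ⟨n, hn, rfl⟩ := hx
        obtain ⟨k, hk, rfl⟩ := hy
        exact hsep n hn k hk (by intro e; exact hne (by rw [e]))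
    rw [card_image_of_injective _ Nat.cast_injective] at h1
    have h2 : (B.card : ℝ) ≤ ((8 * Y / H : ℕ) : ℝ) + 1 := by exact_mod_cast h1
    have h3 : ((8 * Y / H : ℕ) : ℝ) ≤ 8 * Y / H := by
      refine Nat.cast_div_le.trans (le_of_eq ?_)
      push_cast
      ring
    have h4 : 1 ≤ (Y : ℝ) / H := by
      rw [le_div_iff₀ (by linarith)]
      nlinarith
    have h5 : 9 * (Y : ℝ) / H = 8 * Y / H + Y / H := by ring
    linarith
  have triv : ∀ c' : ℝ, 9 * c' ≤ C → (H : ℝ) ^ 3 ≤ c' * Y → (B.card : ℝ) ≤ C * ((Y : ℝ) / H ^ 2) ^ 2 := by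
    intro c' hc' h
    refine hBc.trans ?_
    have e1 : 9 * (Y : ℝ) / H ≤ 9 * c' * (Y / H ^ 2) ^ 2 := by
      rw [div_pow, mul_div_assoc', div_le_div_iff₀ (by positivity) (by positivity)]
      calc 9 * (Y : ℝ) * (H ^ 2) ^ 2 = 9 * Y * H * H ^ 3 := by ring
        _ ≤ 9 * Y * H * (c' * Y) := by gcongr
        _ = _ := by ring
    have e2 : 9 * c' * ((Y : ℝ) / H ^ 2) ^ 2 ≤ C * (Y / H ^ 2) ^ 2 := by gcongr
    linarith
  by_cases hYs : Y < Y₀ + 10
  · refine hBc.trans ?_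
    have e1 : (Y : ℝ) ≤ Y₀ + 10 := by exact_mod_cast hYs.le
    have e2 : C * 1 ≤ C * ((Y : ℝ) / H ^ 2) ^ 2 := mul_le_mul_of_nonneg_left hr2 (by linarith)
    have e3 : 9 * (Y : ℝ) / H ≤ 9 * Y := div_le_self (by linarith) hH0
    linarith
  push Not at hYs
  obtain ⟨k, hk⟩ : ∃ k, k = H / 2 := ⟨_, rfl⟩
  by_cases hH1 : H = 1
  · apply triv 1 (by linarith)
    rw [hH1, Nat.cast_one, one_pow, one_mul]
    linarith
  have hk1 : 1 ≤ k := by omega
  have hk3 : H ≤ 3 * k := by omega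
  have hk2 : 2 * k ≤ H := by omega
  have hk0 : (1 : ℝ) ≤ k := by exact_mod_cast hk1
  have hk3' : (H : ℝ) ≤ 3 * k := by exact_mod_cast hk3
  have hk2' : 2 * (k : ℝ) ≤ H := by exact_mod_cast hk2
  have hH3 : (H : ℝ) ^ 3 ≤ 27 * k ^ 3 := by
    calc (H : ℝ) ^ 3 ≤ (3 * k) ^ 3 := pow_le_pow_left₀ (by linarith) hk3' 3
      _ = _ := by ring
  by_cases hkC : (k : ℝ) < C₁
  · apply triv (27 * C₁ ^ 3) (by linarith)
    have e1 : (k : ℝ) ^ 3 ≤ C₁ ^ 3 := pow_le_pow_left₀ (by linarith) hkC.le 3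
    calc (H : ℝ) ^ 3 ≤ 27 * k ^ 3 := hH3
      _ ≤ 27 * C₁ ^ 3 := by gcongr
      _ ≤ 27 * C₁ ^ 3 * Y := le_mul_of_one_le_right (by positivity) (by linarith)
  push Not at hkC
  obtain ⟨Q, hQ⟩ : ∃ Q, Q = ⌊(k : ℝ) / C₁⌋₊ := ⟨_, rfl⟩
  obtain ⟨s, hs⟩ : ∃ s, s = ⌈2 * C₁ * Y / k ^ 2⌉₊ := ⟨_, rfl⟩
  have hkC1 : 1 ≤ (k : ℝ) / C₁ := by
    rw [le_div_iff₀ (by linarith), one_mul]
    exact hkC
  have hQ1 : (Q : ℝ) ≤ k / C₁ := by rw [hQ]; exact Nat.floor_le (by positivity)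
  have hQ2 : (k : ℝ) / C₁ < Q + 1 := by rw [hQ]; exact Nat.lt_floor_add_one _
  have hQ3 : 1 ≤ Q := by
    rw [hQ]
    exact (Nat.one_le_floor_iff _).2 hkC1
  have hQ3' : (1 : ℝ) ≤ Q := by exact_mod_cast hQ3
  have hQ4 : (k : ℝ) / (2 * C₁) ≤ Q := by
    have : (k : ℝ) / (2 * C₁) = (k / C₁) / 2 := by field_simp
    rw [this]
    linarith
  have hkY : (k : ℝ) ^ 2 ≤ Y := by
    refine le_trans ?_ hHY'
    apply pow_le_pow_left₀ (by linarith)
    linarith
  have hs0 : 2 ≤ 2 * C₁ * Y / k ^ 2 := by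
    rw [le_div_iff₀ (by positivity)]
    calc 2 * (k : ℝ) ^ 2 ≤ 2 * Y := by linarith
      _ = 2 * 1 * Y := by ring
      _ ≤ 2 * C₁ * Y := by gcongr
  have hs1 : 2 * C₁ * Y / k ^ 2 ≤ s := by rw [hs]; exact Nat.le_ceil _
  have hs2 : (s : ℝ) < 2 * C₁ * Y / k ^ 2 + 1 := by rw [hs]; exact Nat.ceil_lt_add_one (by linarith)
  have hs3 : (s : ℝ) ≤ 4 * C₁ * Y / k ^ 2 := by
    have : 4 * C₁ * (Y : ℝ) / k ^ 2 = 2 * (2 * C₁ * Y / k ^ 2) := by ring
    rw [this]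
    linarith
  have hs4 : 1 ≤ s := by
    have : (1 : ℝ) ≤ s := by linarith
    exact_mod_cast this
  by_cases hsQ : Q < s
  · apply triv (216 * C₁ ^ 2) (by linarith)
    have e1 : (Q : ℝ) ≤ s := by exact_mod_cast hsQ.le
    have e2 : (k : ℝ) / (2 * C₁) ≤ 4 * C₁ * Y / k ^ 2 := by linarith
    rw [div_le_div_iff₀ (by positivity) (by positivity)] at e2
    have e3 : (k : ℝ) ^ 3 ≤ 8 * C₁ ^ 2 * Y := by
      calc (k : ℝ) ^ 3 = k * k ^ 2 := by ring
        _ ≤ 4 * C₁ * Y * (2 * C₁) := e2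
        _ = _ := by ring
    calc (H : ℝ) ^ 3 ≤ 27 * k ^ 3 := hH3
      _ ≤ 27 * (8 * C₁ ^ 2 * Y) := by gcongr
      _ = _ := by ring
  push Not at hsQ
  have key := hfew Y (by omega) k Q s hs4 hsQ (by
      rw [le_div_iff₀ (by linarith)] at hQ1
      linarith) (by
      have e1 : (2 * k) ^ 2 ≤ H ^ 2 := Nat.pow_le_pow_left hk2 2
      have e2 : (2 * k) ^ 2 = 4 * k ^ 2 := by ring
      omega) (by
      have e1 : (Y : ℝ) ≤ ((s * k * Q : ℕ) : ℝ) := by
        push_cast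
        calc (Y : ℝ) = (2 * C₁ * Y / k ^ 2) * k * (k / (2 * C₁)) := by
              field_simp
          _ ≤ (s : ℝ) * k * Q := by gcongr
      exact_mod_cast e1) B hB (by
      intro x hx y hy hne
      have := hsep x hx y hy hne
      have : (k : ℤ) ≤ H := by exact_mod_cast (by omega : k ≤ H)
      linarith) (by
      intro y hy
      obtain ⟨σ, hσ, hb⟩ := hbad y hy
      refine ⟨σ, hσ, ?_⟩
      have hb2 : (cntP y k σ : ℝ) < 3 * δ * k := by
        have e1 : (cntP y k σ : ℝ) ≤ cntP y H σ := by exact_mod_cast cntP_mono y σ (by omega : k ≤ H)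
        have e2 : δ * H ≤ δ * (3 * k) := mul_le_mul_of_nonneg_left hk3' hδ0
        linarith
      have hY10 : (10 : ℝ) ≤ Y := by exact_mod_cast (by omega : 10 ≤ Y)
      have hlY : 1 ≤ Real.log Y := by
        rw [Real.le_log_iff_exp_le (by linarith)]
        have := Real.exp_one_lt_d9
        linarith
      have hl2 : Real.log (10 * (Y : ℝ)) ≤ 2 * Real.log Y := by
        have : Real.log ((Y : ℝ) ^ 2) = 2 * Real.log Y := by
          rw [Real.log_pow]; norm_num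
        rw [← this]
        apply Real.log_le_log (by positivity)
        nlinarith
      have hl3 : 0 ≤ Real.log (10 * (Y : ℝ)) := by
        apply Real.log_nonneg
        linarith
      have hlp : 0 < Real.log Y := by linarith
      calc (cntP y k σ : ℝ) * (K * (1 + Real.log (10 * (Y : ℝ)))) ^ 2
          ≤ (cntP y k σ : ℝ) * (K * (4 * Real.log Y)) ^ 2 := by
            apply mul_le_mul_of_nonneg_left _ (Nat.cast_nonneg _)
            apply pow_le_pow_left₀ (by positivity)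
            apply mul_le_mul_of_nonneg_left _ (by linarith)
            linarith
        _ < (3 * δ * k) * (K * (4 * Real.log Y)) ^ 2 := by
            apply mul_lt_mul_of_pos_right hb2
            positivity
        _ = k / 8 := by
            rw [hδ]
            have hK0 : K ≠ 0 := by linarith
            have hl0 : Real.log Y ≠ 0 := hlp.ne'
            field_simp
            norm_num)
  have hcard : (B.card : ℝ) ≤ (s : ℝ) ^ 2 := by exact_mod_cast key.le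
  refine hcard.trans ?_
  calc (s : ℝ) ^ 2 ≤ (4 * C₁ * Y / k ^ 2) ^ 2 := pow_le_pow_left₀ (Nat.cast_nonneg _) hs3 2
    _ ≤ (36 * C₁ * (Y / H ^ 2)) ^ 2 := by
        apply pow_le_pow_left₀ (by positivity)
        rw [mul_div_assoc', div_le_div_iff₀ (by positivity) (by positivity)]
        have e1 : (H : ℝ) ^ 2 ≤ 9 * k ^ 2 := by
          calc (H : ℝ) ^ 2 ≤ (3 * k) ^ 2 := pow_le_pow_left₀ (by linarith) hk3' 2
            _ = _ := by ring
        calc 4 * C₁ * (Y : ℝ) * H ^ 2 ≤ 4 * C₁ * Y * (9 * k ^ 2) := by gcongr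
          _ = _ := by ring
    _ = 1296 * C₁ ^ 2 * (Y / H ^ 2) ^ 2 := by ring
    _ ≤ C * (Y / H ^ 2) ^ 2 := by
        apply mul_le_mul_of_nonneg_right _ (by positivity)
        linarith

/-- the integers `n` of a block with a bad window -/
noncomputable def bad (X H : ℕ) (δ : ℝ) : Finset ℕ := by
  classical
  exact (Ioc X (2 * X)).filter (fun n => ∃ u h : ℕ, H ≤ h ∧ n ^ 2 - n ≤ u ∧ u + h ≤ n ^ 2 + n ∧
    ∃ σ < 2, (cntP u h σ : ℝ) < δ * h)

lemma mem_bad {X H n : ℕ} {δ : ℝ} : n ∈ bad X H δ ↔ (X < n ∧ n ≤ 2 * X) ∧ ∃ u h : ℕ, H ≤ h ∧ n ^ 2 - n ≤ u ∧ u + h ≤ n ^ 2 + n ∧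
    ∃ σ < 2, (cntP u h σ : ℝ) < δ * h := by
  classical
  unfold bad
  rw [mem_filter, mem_Ioc]

/-- one block -/
theorem block {C c : ℝ} (hc : 0 < c)
    (hg : ∀ Y H : ℕ, 2 ≤ Y → 1 ≤ H → H ^ 2 ≤ Y → ∀ B : Finset ℕ,
      (∀ y ∈ B, Y ≤ y ∧ y ≤ 9 * Y) → (∀ x ∈ B, ∀ y ∈ B, x ≠ y → (H : ℤ) ≤ |(x : ℤ) - y|) →
      (∀ y ∈ B, ∃ σ < 2, (cntP y H σ : ℝ) < c / (Real.log Y) ^ 2 * H) → (B.card : ℝ) ≤ C * ((Y : ℝ) / H ^ 2) ^ 2)
    (X H : ℕ) (hX : 2 ≤ X) (hH : 1 ≤ H) (hHX : H ≤ X) :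
    ((bad X H (c / 8 / (Real.log X) ^ 2)).card : ℝ) ≤ C * ((X : ℝ) / H) ^ 4 := by
  classical
  have hX0 : (2 : ℝ) ≤ X := by exact_mod_cast hX
  have hlX : 0 < Real.log X := Real.log_pos (by linarith)
  obtain ⟨δ, hδ⟩ : ∃ δ : ℝ, δ = c / 8 / (Real.log X) ^ 2 := ⟨_, rfl⟩
  rw [← hδ]
  have hδ0 : 0 ≤ δ := by rw [hδ]; positivity
  have hwin : ∀ n ∈ bad X H δ, ∃ u' : ℕ, n ^ 2 - n ≤ u' ∧ u' + H ≤ n ^ 2 + n ∧ ∃ σ < 2, (cntP u' H σ : ℝ) < 2 * δ * H := by
    intro n hn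
    obtain ⟨_, u, h, h1, h2, h3, σ, hσ, h4⟩ := mem_bad.1 hn
    obtain ⟨u', a1, a2, a3⟩ := sub_window hH h1 hδ0 h4
    exact ⟨u', by omega, by omega, σ, hσ, a3⟩
  choose! U hU1 hU2 hU3 using hwin
  have hmono : ∀ n ∈ bad X H δ, ∀ n' ∈ bad X H δ, n < n' → U n + H ≤ U n' := by
    intro n hn n' hn' hlt
    have a1 := hU2 n hn
    have a2 := hU1 n' hn'
    have a3 : n ^ 2 + n ≤ n' ^ 2 - n' := by
      apply Nat.le_sub_of_add_le
      nlinarith
    omega
  have hinj : Set.InjOn U (bad X H δ : Finset ℕ) := by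
    intro n hn n' hn' heq
    rw [mem_coe] at hn hn'
    rcases lt_trichotomy n n' with h | h | h
    · have := hmono n hn n' hn' h
      omega
    · exact h
    · have := hmono n' hn' n hn h
      omega
  have key := hg (X ^ 2) H (by nlinarith) hH (Nat.pow_le_pow_left hHX 2) ((bad X H δ).image U) (by
      intro y hy
      rw [mem_image] at hy
      obtain ⟨n, hn, rfl⟩ := hy
      have a1 := hU1 n hn
      have a2 := hU2 n hn
      have a3 := (mem_bad.1 hn).1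
      constructor
      · have : X ^ 2 ≤ n ^ 2 - n := by
          apply Nat.le_sub_of_add_le
          nlinarith [a3.1]
        omega
      · have : n ^ 2 + n ≤ 9 * X ^ 2 := by nlinarith [a3.2]
        omega) (by
      intro x hx y hy hne
      rw [mem_image] at hx hy
      obtain ⟨n, hn, rfl⟩ := hx
      obtain ⟨n', hn', rfl⟩ := hy
      have hne' : n ≠ n' := by intro e; exact hne (by rw [e])
      rw [le_abs]
      rcases lt_or_gt_of_ne hne' with h | h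
      · right
        have := hmono n hn n' hn' h
        omega
      · left
        have := hmono n' hn' n hn h
        omega) (by
      intro y hy
      rw [mem_image] at hy
      obtain ⟨n, hn, rfl⟩ := hy
      obtain ⟨σ, hσ, hb⟩ := hU3 n hn
      refine ⟨σ, hσ, hb.trans_eq ?_⟩
      push_cast
      rw [hδ, Real.log_pow]
      push_cast
      field_simp
      norm_num)
  rw [card_image_of_injOn hinj] at key
  refine key.trans (le_of_eq ?_)
  push_cast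
  have : (X : ℝ) ^ 2 / H ^ 2 = (X / H) ^ 2 := by rw [div_pow]
  rw [this]
  ring

/-- the integers `n ≤ x` with a bad window -/
noncomputable def badx (x : ℕ) (κ c : ℝ) : Finset ℕ := by
  classical
  exact (Icc 2 x).filter (fun n => ∃ u h : ℕ, κ * n ≤ h ∧ n ^ 2 - n ≤ u ∧ u + h ≤ n ^ 2 + n ∧
    ∃ σ < 2, (cntP u h σ : ℝ) < c / (Real.log n) ^ 2 * h)

lemma mem_badx {x n : ℕ} {κ c : ℝ} : n ∈ badx x κ c ↔ (2 ≤ n ∧ n ≤ x) ∧ ∃ u h : ℕ, κ * n ≤ h ∧ n ^ 2 - n ≤ u ∧ u + h ≤ n ^ 2 + n ∧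
    ∃ σ < 2, (cntP u h σ : ℝ) < c / (Real.log n) ^ 2 * h := by
  classical
  unfold badx
  rw [mem_filter, mem_Icc]

/-- the integers up to `x` -/
theorem upto {C c : ℝ} (hC : 1 ≤ C) (hc : 0 < c)
    (hb : ∀ X H : ℕ, 2 ≤ X → 1 ≤ H → H ≤ X → ((bad X H (c / (Real.log X) ^ 2)).card : ℝ) ≤ C * ((X : ℝ) / H) ^ 4)
    (κ : ℝ) (hκ : 0 < κ) (hκ1 : κ ≤ 1) (x : ℕ) (hx : 2 ≤ x) :
    ((badx x κ c).card : ℝ) ≤ 4 * C / κ ^ 4 * Real.log x := by
  classical
  have hκ4 : 0 < κ ^ 4 := by positivity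
  have h1 : ∀ j : ℕ, ((badx (2 ^ (j + 1)) κ c).card : ℝ) ≤ 1 + j * (C / κ ^ 4) := by
    intro j
    induction j with
    | zero =>
      have : badx (2 ^ (0 + 1)) κ c ⊆ {2} := by
        intro n hn
        have := (mem_badx.1 hn).1
        rw [mem_singleton]
        omega
      have h2 := card_le_card this
      rw [card_singleton] at h2
      have h3 : ((badx (2 ^ (0 + 1)) κ c).card : ℝ) ≤ 1 := by exact_mod_cast h2
      simpa using h3
    | succ j ih =>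
      obtain ⟨X, hX⟩ : ∃ X, X = 2 ^ (j + 1) := ⟨_, rfl⟩
      have hX2 : 2 ≤ X := by
        rw [hX, pow_succ]
        have : 1 ≤ 2 ^ j := Nat.one_le_two_pow
        omega
      have hX0 : (2 : ℝ) ≤ X := by exact_mod_cast hX2
      obtain ⟨H, hH⟩ : ∃ H, H = ⌈κ * X⌉₊ := ⟨_, rfl⟩
      have hH1 : 1 ≤ H := by
        rw [hH]
        exact Nat.one_le_ceil_iff.2 (by positivity)
      have hH2 : H ≤ X := by
        rw [hH, Nat.ceil_le]
        nlinarith
      have hH3 : κ * X ≤ H := by rw [hH]; exact Nat.le_ceil _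
      have hH0 : (1 : ℝ) ≤ H := by exact_mod_cast hH1
      have hsub : badx (2 ^ (j + 1 + 1)) κ c ⊆ badx X κ c ∪ bad X H (c / (Real.log X) ^ 2) := by
        intro n hn
        rw [mem_union]
        obtain ⟨⟨n1, n2⟩, u, h, n3, n4, n5, σ, n6, n7⟩ := mem_badx.1 hn
        by_cases hnX : n ≤ X
        · left
          exact mem_badx.2 ⟨⟨n1, hnX⟩, u, h, n3, n4, n5, σ, n6, n7⟩
        · right
          push Not at hnX
          have hXn : (X : ℝ) ≤ n := by exact_mod_cast hnX.le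
          refine mem_bad.2 ⟨⟨hnX, by rw [hX]; rw [pow_succ] at n2; omega⟩, u, h, ?_, n4, n5, σ, n6, ?_⟩
          · rw [hH, Nat.ceil_le]
            refine le_trans ?_ n3
            gcongr
          · refine lt_of_lt_of_le n7 ?_
            have hl : 0 < Real.log X := Real.log_pos (by linarith)
            have hl2 : Real.log X ≤ Real.log n := Real.log_le_log (by linarith) hXn
            gcongr
      have h2 : ((badx (2 ^ (j + 1 + 1)) κ c).card : ℝ) ≤ (badx X κ c).card + (bad X H (c / (Real.log X) ^ 2)).card := by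
        exact_mod_cast (card_le_card hsub).trans (card_union_le _ _)
      have h3 := hb X H hX2 hH1 hH2
      have h4 : ((X : ℝ) / H) ^ 4 ≤ 1 / κ ^ 4 := by
        rw [div_pow, div_le_div_iff₀ (by positivity) hκ4, one_mul, ← mul_pow]
        apply pow_le_pow_left₀ (by positivity)
        linarith [mul_comm κ (X : ℝ)]
      have h5 : C * ((X : ℝ) / H) ^ 4 ≤ C / κ ^ 4 := by
        calc C * ((X : ℝ) / H) ^ 4 ≤ C * (1 / κ ^ 4) := by gcongr
          _ = _ := by ring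
      rw [← hX] at ih
      push_cast
      linarith
  obtain ⟨j, hj⟩ : ∃ j, j = Nat.log 2 x := ⟨_, rfl⟩
  have hj1 : 1 ≤ j := by
    rw [hj]
    exact Nat.log_pos (by norm_num) hx
  have hj2 : x < 2 ^ (j + 1) := by
    rw [hj]
    exact Nat.lt_pow_succ_log_self (by norm_num) x
  have hj3 : 2 ^ j ≤ x := by
    rw [hj]
    exact Nat.pow_log_le_self 2 (by omega)
  have h2 : ((badx x κ c).card : ℝ) ≤ (badx (2 ^ (j + 1)) κ c).card := by
    have : badx x κ c ⊆ badx (2 ^ (j + 1)) κ c := by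
      intro n hn
      obtain ⟨⟨n1, n2⟩, h⟩ := mem_badx.1 hn
      exact mem_badx.2 ⟨⟨n1, by omega⟩, h⟩
    exact_mod_cast card_le_card this
  refine h2.trans ((h1 j).trans ?_)
  have hj0 : (1 : ℝ) ≤ j := by exact_mod_cast hj1
  have h3 : (j : ℝ) * Real.log 2 ≤ Real.log x := by
    rw [← Real.log_pow]
    apply Real.log_le_log (by positivity)
    exact_mod_cast hj3
  have h4 : (1 : ℝ) / 2 ≤ Real.log 2 := by
    have := Real.log_two_gt_d9
    linarith
  have h5 : (j : ℝ) ≤ 2 * Real.log x := by nlinarith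
  have h6 : 1 ≤ C / κ ^ 4 := by
    rw [le_div_iff₀ hκ4, one_mul]
    have : κ ^ 4 ≤ 1 := pow_le_one₀ hκ.le hκ1
    linarith
  calc 1 + (j : ℝ) * (C / κ ^ 4) ≤ j * (C / κ ^ 4) + j * (C / κ ^ 4) := by nlinarith
    _ = 2 * (C / κ ^ 4) * j := by ring
    _ ≤ 2 * (C / κ ^ 4) * (2 * Real.log x) := by gcongr
    _ = _ := by ring

end Pool.Agent.Helper34.OP
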